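import Pool.Agent.N748.GC.Stm

set_option autoImplicit false

/-!
# Project HM, wave 2: windows of length one

Both statements are about exponents `0 < α < 1` (the subcritical range) and windows of length one.

(POS) the total mass of the limit of the normalised random Euler products is almost surely positive.
Proof: `Λ 1` is the `L¹` limit of `m z w = ∫_0^1 rz α z w x dx`, with mean `1` (third clause of `Lim1` with `f = 1`).
For fixed `n` and two points `w, w'` of `Om` which agree at all primes `p ≥ n`, all ratios `rz α z w x / rz α z w' x`,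
`z ≥ n`, lie between two positive constants `c n`, `1 / c n` (the factor of `p` is `|1 - e(w_p) p^(-1/2-ix)|^(-2α)`, between
`(1 + p^(-1/2))^(-2α)` and `(1 - p^(-1/2))^(-2α)`; the normalising constant is the same). Along a subsequence `m z → Λ 1`
almost surely; so up to a null set the event `{Λ 1 = 0}` is the event `{liminf along the subsequence of m z = 0}`, which does
not depend on the coordinates below `n`, for every `n`: a tail event, of probability `0` or `1` by Kolmogorov's 0-1 law
(in Mathlib: `ProbabilityTheory.measure_zero_or_one_of_measurableSet_limsup_atTop`, with the independence of the coordinates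
of `Measure.infinitePi`, `iIndepFun_infinitePi`). Not `1` since the mean is `1`. `Λ 1 ≥ 0` almost surely is clear.

(W0) for almost all `t` the integral of `Zn α` over `[t, t+1]` is not very small.
Proof: (DIS) with `n = 1`, `f = 1` and `G` continuous, `1` on `(-∞, κ]`, `0` on `[2κ, ∞)`, between `0` and `1`; by (POS)
`PO {Λ 1 < 2κ} ≤ ε/2` for small `κ`; `vol {t ≤ T : ∫ ≤ κ} ≤ ∫_0^T G`.
-/

namespace Pool.Agent.V5helper51.HM

open MeasureTheory Filter Topology
open Pool.Agent.N748.GC

/-- (POS) the total mass is positive -/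
def S_POS : Prop := ∀ α : ℝ, 0 < α → α < 1 → ∀ Λ : (ℝ → ℝ) → Om → ℝ, Lim1 α Λ → ∀ᵐ w ∂PO, 0 < Λ (fun _ => 1) w

/-- (W0) the masses of the windows of length one are not very small; to be proved from `S_POS`, `S_DIS`, `S_LAM` -/
def S_W0 : Prop := ∀ α : ℝ, 0 < α → α < 1 → ∀ δ : ℝ → ℝ, Pd δ → ∀ ε : ℝ, 0 < ε → ∃ κ : ℝ, 0 < κ ∧
  ∀ᶠ T : ℝ in atTop, volume ({t : ℝ | ∫ x in (0:ℝ)..1, Zn α (δ T) (t + x) ≤ κ} ∩ Set.Icc 0 T) ≤ ENNReal.ofReal (ε * T)

end Pool.Agent.V5helper51.HM
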