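import Pool.Agent.V5helper51.HM.Res
import Pool.Agent.N748.HM.SUP
import Pool.Agent.N748.GC.Fin
import Pool.Agent.V5helper15.HM.BADA3
import Pool.Agent.V5helper15.HM.BADB3
import Pool.Agent.V5helper15.HM.FAR3
import Pool.Agent.V5helper15.HM.LEN3
import Pool.Agent.V5helper15.HM.NEAR3
import Pool.Agent.V5helper15.HM.NNL3
import Pool.Agent.V5helper15.HM.NNQ3
import Pool.Agent.V5helper15.HM.ONE3
import Pool.Agent.V5helper16.HM.SUPZ
import Pool.Agent.V5helper24.HM.INV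
import Pool.Agent.V5helper24.HM.POS
import Pool.Agent.V5helper27.HM.CL
import Pool.Agent.V5helper35.HM.BLK3
import Pool.Agent.V5helper35.HM.NNB3
import Pool.Agent.V5helper44.HM.PRM
import Pool.Agent.V5helper44.HM.XS1
import Pool.Agent.V5helper47.HM.CORE3
import Pool.Agent.V5helper47.HM.MOM3
import Pool.Agent.V5helper61.HM.NRM
import Pool.Agent.V5helper61.HM.SQ1
import Pool.Agent.V5helper72.HM.AVG
import Pool.Agent.V5helper72.HM.W0
import Pool.Agent.V5helper73.HM.KAP3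
import Pool.Agent.V5helper73.HM.SQ2
import Pool.Agent.V5helper81.HM.CUT3
import Pool.Agent.V5helper81.HM.ZML3

set_option autoImplicit false

/-!
# Project HM: all parts put together
-/

namespace Pool.Agent.V5helper51.HM

open Pool.Agent.N748.HM

theorem a_NNB3 : S_NNB3 := Pool.Agent.V5helper35.HM.t_NNB3 Pool.Agent.V5helper35.HM.t_BLK3

theorem a_LEN3 : S_LEN3 := Pool.Agent.V5helper15.HM.LEN3.t_LEN3

theorem a_NNL3 : S_NNL3 := Pool.Agent.V5helper15.HM.NNL3.t_NNL3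

theorem a_NNQ3 : S_NNQ3 := Pool.Agent.V5helper15.HM.NNQ3.t_NNQ3

theorem a_ONE3 : S_ONE3 := Pool.Agent.V5helper15.HM.ONE3.t_ONE3 a_NNB3 a_NNL3 a_LEN3

theorem a_BADA3 : S_BADA3 := Pool.Agent.V5helper15.HM.BADA3.t_BADA3 a_NNQ3 a_LEN3

theorem a_BADB3 : S_BADB3 := Pool.Agent.V5helper15.HM.t_BADB3 a_NNB3 a_LEN3

theorem a_NEAR3 : S_NEAR3 := Pool.Agent.V5helper15.HM.t_NEAR3 a_NNB3 a_LEN3

theorem a_FAR3 : S_FAR3 := Pool.Agent.V5helper15.HM.FAR3.t_FAR3 a_NNB3 a_NNL3 a_LEN3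

theorem a_KAP3 : S_KAP3 := Pool.Agent.V5helper73.HM.KAP3.t_KAP3 Pool.Agent.V5helper81.HM.t_ZML3

theorem a_MOM3 : S_MOM3 := Pool.Agent.V5helper47.HM.t_MOM3

theorem a_CUT3 : S_CUT3 := Pool.Agent.V5helper81.HM.t_CUT3 a_MOM3

theorem a_AVG : S_AVG :=
  Pool.Agent.V5helper72.HM.t_AVG a_ONE3 a_BADA3 a_BADB3 a_NEAR3 a_FAR3 a_KAP3 a_MOM3 a_CUT3

theorem a_SQ1 : S_SQ1 := Pool.Agent.V5helper61.HM.t_SQ1

theorem a_SQ2 : S_SQ2 := Pool.Agent.V5helper73.HM.SQ2.t_SQ2 a_ONE3 a_SQ1 a_LEN3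

theorem a_NRM : S_NRM := Pool.Agent.V5helper61.HM.t_NRM

theorem a_CL : S_CL := Pool.Agent.V5helper27.HM.t_CL Pool.Agent.V5helper24.HM.t_INV a_NRM

theorem a_PRM : S_PRM := Pool.Agent.V5helper44.HM.t_PRM Pool.Agent.V5helper44.HM.t_XS1

theorem core3 : S_CORE3 := Pool.Agent.V5helper47.HM.CORE3.t_CORE3 a_AVG a_SQ2 a_CL a_PRM

theorem supz_all : S_SUPZ :=
  Pool.Agent.V5helper16.HM.SUPZ.t_SUPZ SUP.main a_NNB3 a_LEN3 a_SQ1 a_NRM a_CL a_PRM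

theorem w0_all : S_W0 :=
  Pool.Agent.V5helper72.HM.t_W0 Pool.Agent.V5helper24.HM.POS.main
    (Pool.Agent.N748.GC.DIS.main Pool.Agent.N748.GC.coreF Pool.Agent.N748.GC.ERG.main Pool.Agent.N748.GC.RZ.main)
    (Pool.Agent.N748.GC.LAM.main Pool.Agent.N748.GC.coreF Pool.Agent.N748.GC.ERG.main Pool.Agent.N748.GC.RZ.main)

end Pool.Agent.V5helper51.HM
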