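import Pool.Agent.N748.HM.Stm
import Pool.Agent.N748.MG.Stm2

set_option autoImplicit false

/-!
# Project HM: the final statements from (CORE3), (SUPZ) and the truncated moments
-/

namespace Pool.Agent.V5helper51.HM

open MeasureTheory Filter Topology

/-- the modulus of zeta at distance `d` from the critical line and height `t` -/
noncomputable def z (d t : ℝ) : ℝ := ‖riemannZeta (1 / 2 + d + t * Complex.I)‖

/-- the proportion of the points of `[0, T]` in the set `S` -/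
noncomputable def frac (T : ℝ) (S : Set ℝ) : ℝ := (volume (S ∩ Set.Icc 0 T)).toReal / T

lemma fr0 (S : ℝ → Set ℝ) (h : ∀ ε : ℝ, 0 < ε → ∀ᶠ T : ℝ in atTop,
    volume (S T ∩ Set.Icc 0 T) ≤ ENNReal.ofReal (ε * T)) : Tendsto (fun T => frac T (S T)) atTop (𝓝 0) := by
  rw [Metric.tendsto_atTop']
  intro ε hε
  have h1 := h (ε / 2) (by positivity)
  obtain ⟨N, hN⟩ := eventually_atTop.1 (h1.and (eventually_gt_atTop (0:ℝ)))
  refine ⟨N, fun T hT => ?_⟩
  obtain ⟨h2, hT0⟩ := hN T hT.le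
  have h3 : (volume (S T ∩ Set.Icc 0 T)).toReal ≤ ε / 2 * T := by
    have := ENNReal.toReal_mono ENNReal.ofReal_ne_top h2
    rwa [ENNReal.toReal_ofReal (by positivity)] at this
  have h4 : 0 ≤ (volume (S T ∩ Set.Icc 0 T)).toReal := ENNReal.toReal_nonneg
  rw [Real.dist_eq, sub_zero]
  unfold frac
  rw [abs_of_nonneg (by positivity), div_lt_iff₀ hT0]
  nlinarith [mul_pos hε hT0]

/-- admissible distances -/
structure Ad (d : ℝ → ℝ) : Prop where
  pos : ∀ᶠ T : ℝ in atTop, 0 < d T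
  t0 : Tendsto d atTop (𝓝 0)
  tL : Tendsto (fun T : ℝ => d T * Real.log T / Real.log (1 / d T) ^ 2) atTop atTop

lemma Ad.ev {d : ℝ → ℝ} (h : Ad d) (lam δ0 : ℝ) (hδ : 0 < δ0) : ∀ᶠ T : ℝ in atTop,
    0 < d T ∧ d T ≤ δ0 ∧ lam * Real.log (1 / d T) ^ 2 ≤ d T * Real.log T := by
  filter_upwards [h.pos, h.t0.eventually (ge_mem_nhds hδ), h.tL.eventually_ge_atTop lam,
    h.t0.eventually (gt_mem_nhds (zero_lt_one))] with T h1 h2 h3 h4
  refine ⟨h1, h2, ?_⟩
  have h5 : 0 < Real.log (1 / d T) := Real.log_pos (by rw [lt_div_iff₀ h1]; linarith)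
  rwa [le_div_iff₀ (by positivity)] at h3

open Pool.Agent.N748.GC in
lemma part1 (hC : Pool.Agent.N748.HM.S_CORE3) {d : ℝ → ℝ} (hd : Ad d) (k θ D η : ℝ) (hk : 0 < k) (hθ : 0 < θ)
    (hkθ : k ^ 2 - 1 < θ) (hη : 0 < η) (H : ℝ → ℝ) (hH : ∀ᶠ T : ℝ in atTop, d T ^ (-θ) ≤ H T ∧ H T ≤ d T ^ (-D)) :
    ∀ ε : ℝ, 0 < ε → ∀ᶠ T : ℝ in atTop,
      volume ({t : ℝ | η ≤ |(1 / H T) * (∫ u in t..(t + H T), Zn k (d T) u) - 1|} ∩ Set.Icc 0 T) ≤
        ENNReal.ofReal (ε * T) := by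
  intro ε hε
  obtain ⟨lam, δ0, hlam, hδ0, hδ1, hX⟩ := hC k hk θ hθ hkθ (max θ D) (le_max_left _ _) ε hε η hη
  filter_upwards [hX, hd.ev lam δ0 hδ0, hH] with T h1 ⟨h2, h3, h4⟩ ⟨h5, h6⟩
  have h7 : H T ≤ d T ^ (-(max θ D)) := by
    refine h6.trans (Real.rpow_le_rpow_of_exponent_ge h2 (by linarith) ?_)
    have := le_max_right θ D
    linarith
  refine le_trans (measure_mono ?_) (h1 (d T) h2 h3 h4 (H T) h5 h7)
  rintro t ⟨ht1, ht2⟩
  exact ⟨ht2.1, ht2.2, ht1⟩

lemma z_cont {δ : ℝ} (_h0 : 0 < δ) (h1 : δ < 1 / 2) : Continuous (z δ) := by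
  unfold z
  refine Continuous.norm ?_
  rw [continuous_iff_continuousAt]
  intro u
  have h2 : (1 / 2 + (δ:ℂ) + (u:ℂ) * Complex.I) ≠ 1 := by
    intro h
    have := congrArg Complex.re h
    simp at this
    linarith
  have h3 : ContinuousAt riemannZeta (1 / 2 + (δ:ℂ) + (u:ℂ) * Complex.I) :=
    (differentiableAt_riemannZeta h2).continuousAt
  have h4 : ContinuousAt (fun u : ℝ => (1 / 2 + (δ:ℂ) + (u:ℂ) * Complex.I)) u := by fun_prop
  exact ContinuousAt.comp (f := fun u : ℝ => (1 / 2 + (δ:ℂ) + (u:ℂ) * Complex.I)) h3 h4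

lemma z_nonneg (δ u : ℝ) : 0 ≤ z δ u := norm_nonneg _

/-- the cut-off power -/
noncomputable def G (k c δ u : ℝ) : ℝ := if z δ u ≤ c then z δ u ^ (2 * k) else 0

lemma G_nonneg (k c δ u : ℝ) : 0 ≤ G k c δ u := by
  unfold G
  split_ifs
  · exact Real.rpow_nonneg (z_nonneg _ _) _
  · exact le_rfl

lemma G_le {k c δ : ℝ} (hk : 0 < k) (hc : 0 ≤ c) (u : ℝ) : G k c δ u ≤ c ^ (2 * k) := by
  unfold G
  split_ifs with h
  · exact Real.rpow_le_rpow (z_nonneg _ _) h (by linarith)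
  · exact Real.rpow_nonneg hc _

lemma G_meas {k δ : ℝ} (c : ℝ) (h0 : 0 < δ) (h1 : δ < 1 / 2) : Measurable (G k c δ) := by
  unfold G
  refine Measurable.ite ?_ ((z_cont h0 h1).measurable.pow_const _) measurable_const
  exact measurableSet_le (z_cont h0 h1).measurable measurable_const

lemma G_ii {k c δ : ℝ} (hk : 0 < k) (hc : 0 ≤ c) (h0 : 0 < δ) (h1 : δ < 1 / 2) (a b : ℝ) :
    IntervalIntegrable (G k c δ) volume a b := by
  refine IntervalIntegrable.mono_fun (g := G k c δ) (f := fun _ => c ^ (2 * k)) intervalIntegrable_const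
    (G_meas c h0 h1).aestronglyMeasurable ?_
  refine Eventually.of_forall fun u => ?_
  show ‖G k c δ u‖ ≤ ‖c ^ (2 * k)‖
  rw [Real.norm_of_nonneg (G_nonneg _ _ _ _), Real.norm_of_nonneg (Real.rpow_nonneg hc _)]
  exact G_le hk hc u

/-- Markov's inequality for the window averages of the cut-off power -/
lemma markov {k c δ : ℝ} (hk : 0 < k) (hc : 0 ≤ c) (h0 : 0 < δ) (h1 : δ < 1 / 2) {H T : ℝ} (hH : 0 < H)
    (hHT : H ≤ T) {κ : ℝ} (hκ : 0 < κ) :
    volume ({t : ℝ | κ ≤ (1 / H) * ∫ u in t..(t + H), G k c δ u} ∩ Set.Icc 0 T) ≤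
      ENNReal.ofReal ((∫ u in (0:ℝ)..(2 * T), G k c δ u) / κ) := by
  have hT : 0 < T := lt_of_lt_of_le hH hHT
  set F : ℝ → ℝ := fun t => (1 / H) * ∫ u in t..(t + H), G k c δ u with hF
  have hGi := G_ii hk hc h0 h1
  have hFc : Continuous F := by
    have e : F = fun t => (1 / H) * ((∫ u in (0:ℝ)..(t + H), G k c δ u) - ∫ u in (0:ℝ)..t, G k c δ u) := by
      funext t
      rw [hF]
      simp only
      rw [intervalIntegral.integral_interval_sub_left (hGi _ _) (hGi _ _)]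
    rw [e]
    have h2 : Continuous fun t : ℝ => ∫ u in (0:ℝ)..t, G k c δ u :=
      intervalIntegral.continuous_primitive (fun a b => hGi a b) 0
    exact continuous_const.mul ((h2.comp (continuous_id.add continuous_const)).sub h2)
  have hF0 : ∀ t, 0 ≤ F t := by
    intro t
    rw [hF]
    simp only
    refine mul_nonneg (by positivity) ?_
    exact intervalIntegral.integral_nonneg (by linarith) fun u _ => G_nonneg _ _ _ _
  -- the mean value of the averages
  have hint : ∫ t in (0:ℝ)..T, F t ≤ ∫ u in (0:ℝ)..(2 * T), G k c δ u := by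
    set P : ℝ → ℝ := fun t => ∫ u in (0:ℝ)..t, G k c δ u with hP
    have hPc : Continuous P := intervalIntegral.continuous_primitive (fun a b => hGi a b) 0
    have hPm : ∀ a b : ℝ, a ≤ b → P a ≤ P b := by
      intro a b hab
      have h2 : P b - P a = ∫ u in a..b, G k c δ u := by
        rw [hP]
        simp only
        rw [intervalIntegral.integral_interval_sub_left (hGi _ _) (hGi _ _)]
      have h3 : 0 ≤ ∫ u in a..b, G k c δ u := intervalIntegral.integral_nonneg hab fun u _ => G_nonneg _ _ _ _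
      linarith
    have hP0 : P 0 = 0 := by rw [hP]; simp
    have hPi : ∀ a b : ℝ, IntervalIntegrable P volume a b := fun a b => hPc.intervalIntegrable _ _
    have e1 : ∀ t, F t = (1 / H) * (P (t + H) - P t) := by
      intro t
      rw [hF, hP]
      simp only
      rw [intervalIntegral.integral_interval_sub_left (hGi _ _) (hGi _ _)]
    have e2 : ∫ t in (0:ℝ)..T, F t = (1 / H) * ((∫ t in (0:ℝ)..T, P (t + H)) - ∫ t in (0:ℝ)..T, P t) := by
      simp_rw [e1]
      rw [intervalIntegral.integral_const_mul, intervalIntegral.integral_sub _ (hPi _ _)]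
      exact (hPc.comp (continuous_id.add continuous_const)).intervalIntegrable _ _
    rw [e2, intervalIntegral.integral_comp_add_right (fun t => P t) H, zero_add]
    have e3 : (∫ t in H..(T + H), P t) - ∫ t in (0:ℝ)..T, P t = (∫ t in T..(T + H), P t) - ∫ t in (0:ℝ)..H, P t := by
      have h2 := intervalIntegral.integral_add_adjacent_intervals (hPi 0 H) (hPi H (T + H))
      have h3 := intervalIntegral.integral_add_adjacent_intervals (hPi 0 T) (hPi T (T + H))
      linarith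
    rw [e3]
    have h4 : 0 ≤ ∫ t in (0:ℝ)..H, P t := by
      refine intervalIntegral.integral_nonneg hH.le fun u hu => ?_
      rw [← hP0]
      exact hPm _ _ hu.1
    have h5 : ∫ t in T..(T + H), P t ≤ ∫ t in T..(T + H), P (2 * T) := by
      refine intervalIntegral.integral_mono_on (by linarith) (hPi _ _) intervalIntegrable_const fun s hs => ?_
      exact hPm _ _ (by linarith [hs.2])
    rw [intervalIntegral.integral_const, smul_eq_mul, add_sub_cancel_left] at h5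
    calc (1 / H) * ((∫ t in T..(T + H), P t) - ∫ t in (0:ℝ)..H, P t)
        ≤ (1 / H) * (H * P (2 * T)) := mul_le_mul_of_nonneg_left (by linarith) (by positivity)
      _ = P (2 * T) := by field_simp
  -- Markov
  have hms : MeasurableSet {t : ℝ | κ ≤ F t} := measurableSet_le measurable_const hFc.measurable
  have hfin : volume ({t : ℝ | κ ≤ F t} ∩ Set.Icc 0 T) ≠ ⊤ :=
    ne_top_of_le_ne_top (by simp) (measure_mono Set.inter_subset_right)
  have h5 : κ * (volume ({t : ℝ | κ ≤ F t} ∩ Set.Icc 0 T)).toReal ≤ ∫ t in (0:ℝ)..T, F t := by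
    rw [intervalIntegral.integral_of_le hT.le, ← integral_Icc_eq_integral_Ioc]
    have h6 : ∫ t in ({t : ℝ | κ ≤ F t} ∩ Set.Icc 0 T), κ ≤ ∫ t in ({t : ℝ | κ ≤ F t} ∩ Set.Icc 0 T), F t := by
      refine setIntegral_mono_on (integrableOn_const hfin) ?_ (hms.inter measurableSet_Icc) fun t ht => ht.1
      exact (hFc.continuousOn.integrableOn_Icc).mono_set Set.inter_subset_right
    have h7 : ∫ t in ({t : ℝ | κ ≤ F t} ∩ Set.Icc 0 T), F t ≤ ∫ t in Set.Icc 0 T, F t := by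
      refine setIntegral_mono_set hFc.continuousOn.integrableOn_Icc ?_ ?_
      · exact Eventually.of_forall fun t => hF0 t
      · exact Eventually.of_forall Set.inter_subset_right
    rw [setIntegral_const, smul_eq_mul] at h6
    have h8 : volume.real ({t : ℝ | κ ≤ F t} ∩ Set.Icc 0 T) = (volume ({t : ℝ | κ ≤ F t} ∩ Set.Icc 0 T)).toReal := rfl
    rw [h8] at h6
    linarith
  rw [← ENNReal.ofReal_toReal hfin]
  refine ENNReal.ofReal_le_ofReal ?_
  rw [le_div_iff₀ hκ]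
  linarith

lemma supz (hS : Pool.Agent.N748.HM.S_SUPZ) (θ e ε : ℝ) (hθ : 0 ≤ θ) (he : 0 < e) (hε : 0 < ε) :
    ∃ lam δ0 : ℝ, 0 < lam ∧ 0 < δ0 ∧ δ0 ≤ 1 / 16 ∧
      ∀ᶠ X : ℝ in atTop, ∀ δ : ℝ, 0 < δ → δ ≤ δ0 → lam * Real.log (1 / δ) ^ 2 ≤ δ * Real.log X →
      volume {t : ℝ | 0 ≤ t ∧ t ≤ X ∧ ∃ u : ℝ, t ≤ u ∧ u ≤ t + δ ^ (-θ) ∧
        δ ^ (-(Real.sqrt (1 + θ) + e)) ≤ ‖riemannZeta (1 / 2 + δ + u * Complex.I)‖} ≤ ENNReal.ofReal (ε * X) := by
  obtain ⟨lam, δ0, h1, h2, h3, h4⟩ := hS θ hθ (min e ε) (lt_min he hε)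
  refine ⟨lam, δ0, h1, h2, h3, ?_⟩
  filter_upwards [h4, eventually_gt_atTop 0] with X hX hX0 δ hd1 hd2 hd3
  refine le_trans (measure_mono ?_) ((hX δ hd1 hd2 hd3).trans (ENNReal.ofReal_le_ofReal ?_))
  · rintro t ⟨ht1, ht2, u, hu1, hu2, hu3⟩
    refine ⟨ht1, ht2, u, hu1, hu2, le_trans ?_ hu3⟩
    refine Real.rpow_le_rpow_of_exponent_ge hd1 (by linarith) ?_
    have := min_le_left e ε
    linarith
  · exact mul_le_mul_of_nonneg_right (min_le_right _ _) hX0.le

/-- (2) the windows which are too short -/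
lemma part2 (hS : Pool.Agent.N748.HM.S_SUPZ) (h3 : Pool.Agent.N748.MG.S_TM3) {d : ℝ → ℝ} (hd : Ad d) (k θ κ : ℝ)
    (hk : 0 < k) (hθ : 0 ≤ θ) (hkθ : θ < k ^ 2 - 1) (hκ : 0 < κ) (H : ℝ → ℝ)
    (hH : ∀ᶠ T : ℝ in atTop, 0 < H T ∧ H T ≤ d T ^ (-θ)) :
    ∀ ε : ℝ, 0 < ε → ∀ᶠ T : ℝ in atTop,
      volume ({t : ℝ | κ ≤ (1 / H T) * (∫ u in t..(t + H T), z (d T) u ^ (2 * k)) * (2 * d T) ^ (k ^ 2)} ∩ Set.Icc 0 T) ≤
        ENNReal.ofReal (ε * T) := by
  intro ε hε
  set q : ℝ := Real.sqrt (1 + θ) with hq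
  have hqk : q < k := by
    rw [hq, Real.sqrt_lt' hk]
    linarith
  set e : ℝ := (k - q) / 3 with he
  have he0 : 0 < e := by rw [he]; linarith
  set V : ℝ := q + 2 * e with hV
  have hVk : V < k := by rw [hV, he]; linarith
  obtain ⟨lam, δ0, hlam, hδ0, hδ1, hX⟩ := supz hS θ e (ε / 2) hθ he0 (by positivity)
  -- the truncated moment on `[0, 2T]`
  set d' : ℝ → ℝ := fun T => d (T / 2) with hd'
  have hAd : Pool.Agent.N748.MG.Ad d' := by
    have ht : Tendsto (fun T : ℝ => T / 2) atTop atTop := tendsto_id.atTop_div_const (by norm_num)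
    refine ⟨ht.eventually hd.pos, hd.t0.comp ht, ?_⟩
    have h1 : Tendsto (fun T : ℝ => d (T / 2) * Real.log (T / 2) / Real.log (1 / d (T / 2)) ^ 2) atTop atTop :=
      hd.tL.comp ht
    refine tendsto_atTop_mono' _ ?_ h1
    filter_upwards [ht.eventually hd.pos, eventually_gt_atTop 2] with T h2 h4
    refine div_le_div_of_nonneg_right ?_ (sq_nonneg _)
    exact mul_le_mul_of_nonneg_left (Real.log_le_log (by linarith) (by linarith)) h2.le
  have hM := h3 d' hAd k V hk hVk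
  -- the moment is small
  have hsm : Tendsto (fun T : ℝ => (2 * d T) ^ (k ^ 2) *
      Pool.Agent.N748.MG.ML k ((2 * d T) ^ (-V)) (d T) (2 * T)) atTop (𝓝 0) := by
    have ht : Tendsto (fun T : ℝ => 2 * T) atTop atTop := tendsto_id.const_mul_atTop (by norm_num)
    have h1 := hM.comp ht
    have h2 : Tendsto (fun T : ℝ => (2 * d T) ^ ((k - V) ^ 2)) atTop (𝓝 0) := by
      have h4 : Tendsto (fun T : ℝ => 2 * d T) atTop (𝓝 0) := by simpa using hd.t0.const_mul 2
      have h5 : ContinuousAt (fun x : ℝ => x ^ ((k - V) ^ 2)) 0 :=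
        Real.continuousAt_rpow_const _ _ (Or.inr (by positivity))
      have h6 := h5.tendsto.comp h4
      rw [Real.zero_rpow (by have : 0 < (k - V) ^ 2 := by { have : 0 < k - V := by linarith
                                                            positivity }
                             exact this.ne')] at h6
      exact h6
    have h7 := h1.mul h2
    rw [mul_zero] at h7
    rw [tendsto_zero_iff_abs_tendsto_zero] at h7 ⊢
    refine squeeze_zero' (Eventually.of_forall fun T => abs_nonneg _) ?_ h7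
    filter_upwards [hd.pos, hd.t0.eventually (gt_mem_nhds (show (0:ℝ) < 1 / 100 by norm_num))] with T h8 h9
    simp only [Function.comp, hd']
    rw [show 2 * T / 2 = T by ring]
    have h10 : (0:ℝ) < 2 * d T := by linarith
    have h11 : (1:ℝ) ≤ Real.sqrt (Real.pi * Real.log (1 / (2 * d T))) := by
      rw [show (1:ℝ) = Real.sqrt 1 by simp]
      refine Real.sqrt_le_sqrt ?_
      rw [Real.sqrt_one]
      have h12 : (1:ℝ) ≤ Real.log (1 / (2 * d T)) := by
        rw [Real.le_log_iff_exp_le (by positivity)]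
        rw [le_div_iff₀ h10]
        have := Real.exp_one_lt_d9
        nlinarith
      have h13 := Real.pi_gt_three
      nlinarith
    have e2 : Real.sqrt (Real.pi * Real.log (1 / (2 * d T))) * (2 * d T) ^ (2 * k * V - V ^ 2) *
        Pool.Agent.N748.MG.ML k ((2 * d T) ^ (-V)) (d T) (2 * T) * (2 * d T) ^ ((k - V) ^ 2) =
        Real.sqrt (Real.pi * Real.log (1 / (2 * d T))) *
          ((2 * d T) ^ (k ^ 2) * Pool.Agent.N748.MG.ML k ((2 * d T) ^ (-V)) (d T) (2 * T)) := by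
      rw [show k ^ 2 = (2 * k * V - V ^ 2) + (k - V) ^ 2 by ring, Real.rpow_add h10]
      ring
    rw [e2, abs_mul (Real.sqrt (Real.pi * Real.log (1 / (2 * d T)))), abs_of_nonneg (Real.sqrt_nonneg _)]
    exact le_mul_of_one_le_left (abs_nonneg _) h11
  have hsm2 := hsm.eventually (gt_mem_nhds (show (0:ℝ) < κ * ε / 8 by positivity))
  have hHT : ∀ᶠ T : ℝ in atTop, d T ^ (-θ) ≤ T := by
    -- `d T ≥ 1 / log T`
    have h1 : ∀ᶠ T : ℝ in atTop, 1 / d T ≤ Real.log T := by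
      filter_upwards [hd.ev 1 (Real.exp (-1)) (Real.exp_pos _)] with T ⟨h2, h4, h5⟩
      have h6 : 1 ≤ Real.log (1 / d T) := by
        rw [one_div, Real.log_inv]
        have := Real.log_le_log h2 h4
        rw [Real.log_exp] at this
        linarith
      rw [div_le_iff₀ h2]
      nlinarith
    have h2 : ∀ᶠ T : ℝ in atTop, Real.log T ^ θ ≤ T := by
      have h4 := (isLittleO_log_rpow_rpow_atTop θ (zero_lt_one)).bound (zero_lt_one)
      filter_upwards [h4, eventually_gt_atTop 1] with T h5 h6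
      rw [Real.rpow_one, one_mul, Real.norm_of_nonneg (by linarith : (0:ℝ) ≤ T),
        Real.norm_of_nonneg (Real.rpow_nonneg (Real.log_pos h6).le _)] at h5
      exact h5
    filter_upwards [h1, h2, hd.pos] with T h4 h5 h6
    refine le_trans ?_ h5
    rw [Real.rpow_neg h6.le, ← Real.inv_rpow h6.le, ← one_div]
    exact Real.rpow_le_rpow (by positivity) h4 hθ
  have hcmp : ∀ᶠ T : ℝ in atTop, d T ^ (-(q + e)) ≤ (2 * d T) ^ (-V) := by
    have h1 : Tendsto (fun T : ℝ => 2 ^ V * d T ^ e) atTop (𝓝 0) := by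
      have h5 : ContinuousAt (fun x : ℝ => x ^ e) 0 := Real.continuousAt_rpow_const _ _ (Or.inr he0.le)
      have h6 := (h5.tendsto.comp hd.t0).const_mul (2 ^ V)
      rw [Real.zero_rpow he0.ne', mul_zero] at h6
      exact h6
    filter_upwards [h1.eventually (gt_mem_nhds zero_lt_one), hd.pos] with T h2 h4
    have h5 : (2 * d T) ^ V * d T ^ (-(q + e)) ≤ 1 := by
      rw [Real.mul_rpow (by norm_num) h4.le, mul_assoc, ← Real.rpow_add h4]
      rw [show V + -(q + e) = e by rw [hV]; ring]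
      exact h2.le
    rw [Real.rpow_neg (by linarith : (0:ℝ) ≤ 2 * d T)]
    rw [← one_div, le_div_iff₀ (Real.rpow_pos_of_pos (by linarith) _)]
    linarith
  filter_upwards [hX, hd.ev lam δ0 hδ0, hH, hsm2, hHT, hcmp, eventually_gt_atTop 0] with
    T h1 ⟨h2, h4, h5⟩ ⟨h6, h7⟩ h8 h9 h10 hT
  have hδ : d T < 1 / 2 := by linarith
  have h2' : (0:ℝ) < 2 * d T := by linarith
  have h11 := h1 (d T) h2 h4 h5
  have hc : (0:ℝ) ≤ (2 * d T) ^ (-V) := (Real.rpow_pos_of_pos h2' _).le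
  have hnp : (0:ℝ) < (2 * d T) ^ (k ^ 2) := Real.rpow_pos_of_pos h2' _
  have h12 := markov hk hc h2 hδ h6 (h7.trans h9) (κ := κ / (2 * d T) ^ (k ^ 2)) (by positivity)
  have hM0 : ∫ u in (0:ℝ)..(2 * T), G k ((2 * d T) ^ (-V)) (d T) u =
      2 * T * Pool.Agent.N748.MG.ML k ((2 * d T) ^ (-V)) (d T) (2 * T) := by
    unfold Pool.Agent.N748.MG.ML
    rw [intervalIntegral.integral_of_le (by linarith), ← integral_Icc_eq_integral_Ioc]
    have h13 : {t : ℝ | t ∈ Set.Icc 0 (2 * T) ∧ Pool.Agent.N748.MG.mz (d T) t ≤ (2 * d T) ^ (-V)} =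
        Set.Icc 0 (2 * T) ∩ {t : ℝ | Pool.Agent.N748.MG.mz (d T) t ≤ (2 * d T) ^ (-V)} := rfl
    have hz : Pool.Agent.N748.MG.mz (d T) = z (d T) := by
      funext u
      rfl
    rw [h13, hz]
    have hms : MeasurableSet {t : ℝ | z (d T) t ≤ (2 * d T) ^ (-V)} :=
      measurableSet_le (z_cont h2 hδ).measurable measurable_const
    rw [Set.inter_comm, ← Measure.restrict_restrict hms, ← integral_indicator hms]
    have h14 : (fun u => G k ((2 * d T) ^ (-V)) (d T) u) =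
        Set.indicator {t : ℝ | z (d T) t ≤ (2 * d T) ^ (-V)} (fun u => z (d T) u ^ (2 * k)) := by
      funext u
      unfold G Set.indicator
      rfl
    rw [h14]
    field_simp
  have h15 : (∫ u in (0:ℝ)..(2 * T), G k ((2 * d T) ^ (-V)) (d T) u) / (κ / (2 * d T) ^ (k ^ 2)) ≤ ε / 4 * T := by
    rw [hM0, div_le_iff₀ (by positivity)]
    have h16 : 2 * T * Pool.Agent.N748.MG.ML k ((2 * d T) ^ (-V)) (d T) (2 * T) =
        (2 * T * ((2 * d T) ^ (k ^ 2) * Pool.Agent.N748.MG.ML k ((2 * d T) ^ (-V)) (d T) (2 * T))) /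
          (2 * d T) ^ (k ^ 2) := by field_simp
    rw [h16, ← mul_div_assoc]
    refine div_le_div_of_nonneg_right ?_ hnp.le
    have h17 := mul_lt_mul_of_pos_left h8 (show (0:ℝ) < 2 * T by linarith)
    nlinarith
  refine le_trans (measure_mono (t := {t : ℝ | 0 ≤ t ∧ t ≤ T ∧ ∃ u : ℝ, t ≤ u ∧ u ≤ t + d T ^ (-θ) ∧
      d T ^ (-(Real.sqrt (1 + θ) + e)) ≤ ‖riemannZeta (1 / 2 + d T + u * Complex.I)‖} ∪
      ({t : ℝ | κ / (2 * d T) ^ (k ^ 2) ≤ (1 / H T) * ∫ u in t..(t + H T), G k ((2 * d T) ^ (-V)) (d T) u} ∩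
        Set.Icc 0 T)) ?_) ?_
  · rintro t ⟨ht1, ht2⟩
    by_cases hb : ∃ u : ℝ, t ≤ u ∧ u ≤ t + d T ^ (-θ) ∧
      d T ^ (-(Real.sqrt (1 + θ) + e)) ≤ ‖riemannZeta (1 / 2 + d T + u * Complex.I)‖
    · exact Or.inl ⟨ht2.1, ht2.2, hb⟩
    · push_neg at hb
      refine Or.inr ⟨?_, ht2⟩
      have h16 : ∫ u in t..(t + H T), G k ((2 * d T) ^ (-V)) (d T) u = ∫ u in t..(t + H T), z (d T) u ^ (2 * k) := by
        refine intervalIntegral.integral_congr fun u hu => ?_
        rw [Set.uIcc_of_le (by linarith)] at hu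
        have h17 := hb u hu.1 (by linarith [hu.2])
        unfold G
        rw [if_pos]
        exact h17.le.trans h10
      rw [Set.mem_setOf_eq, h16, div_le_iff₀ hnp]
      exact ht1
  · refine le_trans (measure_union_le _ _) ?_
    refine le_trans (add_le_add h11 (h12.trans (ENNReal.ofReal_le_ofReal h15))) ?_
    rw [← ENNReal.ofReal_add (by positivity) (by positivity)]
    refine ENNReal.ofReal_le_ofReal ?_
    nlinarith [mul_pos hε hT]

/-- the maximum over a window -/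
noncomputable def mx (d H t : ℝ) : ℝ := sSup (z d '' Set.Icc t (t + H))

lemma mx_spec {δ H t : ℝ} (h0 : 0 < δ) (h1 : δ < 1 / 2) (hH : 0 ≤ H) :
    (∀ u ∈ Set.Icc t (t + H), z δ u ≤ mx δ H t) ∧ ∃ u ∈ Set.Icc t (t + H), z δ u = mx δ H t := by
  have hc : IsCompact (z δ '' Set.Icc t (t + H)) := isCompact_Icc.image (z_cont h0 h1)
  have hne : (z δ '' Set.Icc t (t + H)).Nonempty := ⟨z δ t, t, ⟨le_rfl, by linarith⟩, rfl⟩
  constructor
  · intro u hu
    exact le_csSup hc.bddAbove ⟨u, hu, rfl⟩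
  · exact hc.sSup_mem hne

/-- (3) upper bound -/
lemma part3u (hS : Pool.Agent.N748.HM.S_SUPZ) {d : ℝ → ℝ} (hd : Ad d) (θ e : ℝ) (hθ : 0 ≤ θ) (he : 0 < e) :
    ∀ ε : ℝ, 0 < ε → ∀ᶠ T : ℝ in atTop,
      volume ({t : ℝ | d T ^ (-(Real.sqrt (1 + θ) + e)) ≤ mx (d T) (d T ^ (-θ)) t} ∩ Set.Icc 0 T) ≤
        ENNReal.ofReal (ε * T) := by
  intro ε hε
  obtain ⟨lam, δ0, hlam, hδ0, hδ1, hX⟩ := supz hS θ e ε hθ he hε
  filter_upwards [hX, hd.ev lam δ0 hδ0] with T h1 ⟨h2, h3, h4⟩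
  refine le_trans (measure_mono ?_) (h1 (d T) h2 h3 h4)
  rintro t ⟨ht1, ht2⟩
  obtain ⟨u, hu1, hu2⟩ := (mx_spec (t := t) h2 (by linarith : d T < 1 / 2) (Real.rpow_nonneg h2.le (-θ))).2
  refine ⟨ht2.1, ht2.2, u, hu1.1, hu1.2, ?_⟩
  have h5 : ‖riemannZeta (1 / 2 + d T + u * Complex.I)‖ = z (d T) u := rfl
  rw [h5, hu2]
  exact ht1

open Pool.Agent.N748.GC in
/-- (3) lower bound -/
lemma part3l (hC : Pool.Agent.N748.HM.S_CORE3) (haa : ∀ α : ℝ, 0 < α → 0 < aa α) {d : ℝ → ℝ} (hd : Ad d) (θ e : ℝ)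
    (hθ : 0 < θ) (he : 0 < e) :
    ∀ ε : ℝ, 0 < ε → ∀ᶠ T : ℝ in atTop,
      volume ({t : ℝ | mx (d T) (d T ^ (-θ)) t ≤ d T ^ (-(Real.sqrt (1 + θ) - e))} ∩ Set.Icc 0 T) ≤
        ENNReal.ofReal (ε * T) := by
  intro ε hε
  set q : ℝ := Real.sqrt (1 + θ) with hq
  have hq1 : 0 < q := Real.sqrt_pos.2 (by linarith)
  set V : ℝ := max 0 (q - e) with hV
  have hVq : V < q := max_lt hq1 (by linarith)
  have hV0 : 0 ≤ V := le_max_left _ _
  set a : ℝ := (V + 2 * q) / 3 with ha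
  set b : ℝ := (2 * V + q) / 3 with hb
  have hb0 : 0 < b := by rw [hb]; linarith
  have hab : b < a := by rw [ha, hb]; linarith
  have ha0 : 0 < a := hb0.trans hab
  have haq : a < q := by rw [ha]; linarith
  have hbV : V < b := by rw [hb]; linarith
  have hsq : ∀ x : ℝ, 0 < x → x < q → x ^ 2 - 1 < θ := by
    intro x hx hxq
    have h1 : x ^ 2 < q ^ 2 := by nlinarith
    rw [hq, Real.sq_sqrt (by linarith)] at h1
    linarith
  have hA := part1 hC hd a θ θ (1 / 2) ha0 hθ (hsq a ha0 haq) (by norm_num) (fun T => d T ^ (-θ))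
    (Eventually.of_forall fun T => ⟨le_rfl, le_rfl⟩) (ε / 2) (by positivity)
  have hB := part1 hC hd b θ θ (1 / 2) hb0 hθ (hsq b hb0 (hab.trans haq)) (by norm_num) (fun T => d T ^ (-θ))
    (Eventually.of_forall fun T => ⟨le_rfl, le_rfl⟩) (ε / 2) (by positivity)
  have hs0 : 0 < (a - b) * (a + b - 2 * V) := mul_pos (by linarith) (by linarith)
  have hlim : ∀ᶠ T : ℝ in atTop, 2 ^ (a ^ 2 - b ^ 2) * (aa b / aa a) * d T ^ ((a - b) * (a + b - 2 * V)) < 1 / 4 := by
    have h5 : ContinuousAt (fun x : ℝ => x ^ ((a - b) * (a + b - 2 * V))) 0 :=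
      Real.continuousAt_rpow_const _ _ (Or.inr hs0.le)
    have h6 := (h5.tendsto.comp hd.t0).const_mul (2 ^ (a ^ 2 - b ^ 2) * (aa b / aa a))
    rw [Real.zero_rpow hs0.ne', mul_zero] at h6
    exact h6.eventually (gt_mem_nhds (by norm_num))
  filter_upwards [hA, hB, hlim, hd.pos, hd.t0.eventually (gt_mem_nhds (show (0:ℝ) < 1 / 16 by norm_num)),
    eventually_gt_atTop 0] with T h1 h2 h3 h4 h5 hT
  have hδ : d T < 1 / 2 := by linarith
  have h4' : (0:ℝ) < 2 * d T := by linarith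
  refine le_trans (measure_mono (t :=
      ({t : ℝ | 1 / 2 ≤ |(1 / d T ^ (-θ)) * (∫ u in t..(t + d T ^ (-θ)), Zn a (d T) u) - 1|} ∩ Set.Icc 0 T) ∪
      ({t : ℝ | 1 / 2 ≤ |(1 / d T ^ (-θ)) * (∫ u in t..(t + d T ^ (-θ)), Zn b (d T) u) - 1|} ∩ Set.Icc 0 T)) ?_) ?_
  · rintro t ⟨ht1, ht2⟩
    by_contra hcon
    rw [Set.mem_union, not_or] at hcon
    obtain ⟨hc1, hc2⟩ := hcon
    have hc1' : |(1 / d T ^ (-θ)) * (∫ u in t..(t + d T ^ (-θ)), Zn a (d T) u) - 1| < 1 / 2 := by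
      by_contra h
      exact hc1 ⟨not_lt.1 h, ht2⟩
    have hc2' : |(1 / d T ^ (-θ)) * (∫ u in t..(t + d T ^ (-θ)), Zn b (d T) u) - 1| < 1 / 2 := by
      by_contra h
      exact hc2 ⟨not_lt.1 h, ht2⟩
    have hH0 : 0 < d T ^ (-θ) := Real.rpow_pos_of_pos h4 _
    have hmx := (mx_spec (t := t) h4 hδ hH0.le).1
    have hma := haa a ha0
    have hmb := haa b hb0
    -- pointwise comparison
    have hpt : ∀ u ∈ Set.Icc t (t + d T ^ (-θ)), Zn a (d T) u ≤ 1 / 4 * Zn b (d T) u := by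
      intro u hu
      have h6 : z (d T) u ≤ d T ^ (-V) := by
        refine ((hmx u hu).trans ht1).trans ?_
        refine Real.rpow_le_rpow_of_exponent_ge h4 (by linarith) ?_
        exact neg_le_neg (le_max_right _ _)
      have h7 : z (d T) u ^ (2 * a) ≤ d T ^ (-V * (2 * (a - b))) * z (d T) u ^ (2 * b) := by
        rw [show 2 * a = 2 * (a - b) + 2 * b by ring,
          Real.rpow_add_of_nonneg (z_nonneg _ _) (by linarith) (by linarith)]
        refine mul_le_mul_of_nonneg_right ?_ (Real.rpow_nonneg (z_nonneg _ _) _)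
        rw [Real.rpow_mul h4.le]
        refine Real.rpow_le_rpow (z_nonneg _ _) h6 (by linarith)
      have e1 : Zn a (d T) u = (2 * d T) ^ (a ^ 2) / aa a * z (d T) u ^ (2 * a) := rfl
      have e2 : Zn b (d T) u = (2 * d T) ^ (b ^ 2) / aa b * z (d T) u ^ (2 * b) := rfl
      have hzb : 0 ≤ z (d T) u ^ (2 * b) := Real.rpow_nonneg (z_nonneg _ _) _
      have hpa : 0 < (2 * d T) ^ (a ^ 2) := Real.rpow_pos_of_pos h4' _
      have hpb : 0 < (2 * d T) ^ (b ^ 2) := Real.rpow_pos_of_pos h4' _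
      rw [e1, e2]
      calc (2 * d T) ^ (a ^ 2) / aa a * z (d T) u ^ (2 * a)
          ≤ (2 * d T) ^ (a ^ 2) / aa a * (d T ^ (-V * (2 * (a - b))) * z (d T) u ^ (2 * b)) :=
            mul_le_mul_of_nonneg_left h7 (by positivity)
        _ = (2 ^ (a ^ 2 - b ^ 2) * (aa b / aa a) * d T ^ ((a - b) * (a + b - 2 * V))) *
            ((2 * d T) ^ (b ^ 2) / aa b * z (d T) u ^ (2 * b)) := by
          have e3 : (2 * d T) ^ (a ^ 2) = 2 ^ (a ^ 2 - b ^ 2) * d T ^ (a ^ 2 - b ^ 2) * (2 * d T) ^ (b ^ 2) := by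
            rw [← Real.mul_rpow (by norm_num) h4.le, ← Real.rpow_add h4']
            congr 1
            ring
          have e4 : d T ^ ((a - b) * (a + b - 2 * V)) = d T ^ (a ^ 2 - b ^ 2) * d T ^ (-V * (2 * (a - b))) := by
            rw [← Real.rpow_add h4]
            congr 1
            ring
          rw [e3, e4]
          field_simp
        _ ≤ 1 / 4 * ((2 * d T) ^ (b ^ 2) / aa b * z (d T) u ^ (2 * b)) :=
            mul_le_mul_of_nonneg_right h3.le (by positivity)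
    have hca : Continuous (Zn a (d T)) := by
      have : Zn a (d T) = fun u => (2 * d T) ^ (a ^ 2) / aa a * z (d T) u ^ (2 * a) := rfl
      rw [this]
      exact continuous_const.mul ((z_cont h4 hδ).rpow_const fun u => Or.inr (by linarith))
    have hcb : Continuous (Zn b (d T)) := by
      have : Zn b (d T) = fun u => (2 * d T) ^ (b ^ 2) / aa b * z (d T) u ^ (2 * b) := rfl
      rw [this]
      exact continuous_const.mul ((z_cont h4 hδ).rpow_const fun u => Or.inr (by linarith))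
    have h8 : ∫ u in t..(t + d T ^ (-θ)), Zn a (d T) u ≤ ∫ u in t..(t + d T ^ (-θ)), 1 / 4 * Zn b (d T) u :=
      intervalIntegral.integral_mono_on (by linarith) (hca.intervalIntegrable _ _)
        ((continuous_const.mul hcb).intervalIntegrable _ _) hpt
    rw [intervalIntegral.integral_const_mul] at h8
    have h9 := mul_le_mul_of_nonneg_left h8 (show (0:ℝ) ≤ 1 / d T ^ (-θ) by positivity)
    rw [abs_lt] at hc1' hc2'
    nlinarith [hc1'.1, hc2'.2]
  · refine le_trans (measure_union_le _ _) ?_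
    refine le_trans (add_le_add h1 h2) ?_
    rw [← ENNReal.ofReal_add (by positivity) (by positivity)]
    refine ENNReal.ofReal_le_ofReal ?_
    nlinarith

end Pool.Agent.V5helper51.HM
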