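import Pool.Agent.V5helper51.HM.Fin

set_option autoImplicit false

/-!
# Project HM: level sets, maximum and the exponents of the moments in windows
-/

namespace Pool.Agent.V5helper51.HM

open MeasureTheory Filter Topology

/-- a family of sets of small proportion -/
def Neg (S : ℝ → Set ℝ) : Prop := ∀ ε : ℝ, 0 < ε → ∀ᶠ T : ℝ in atTop,
    volume (S T ∩ Set.Icc 0 T) ≤ ENNReal.ofReal (ε * T)

lemma Neg.mono {S S' : ℝ → Set ℝ} (h : Neg S) (hm : ∀ᶠ T : ℝ in atTop, ∀ t, 0 ≤ t → t ≤ T → t ∈ S' T → t ∈ S T) :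
    Neg S' := by
  intro ε hε
  filter_upwards [h ε hε, hm] with T h1 h2
  refine le_trans (measure_mono ?_) h1
  rintro t ⟨ht1, ht2⟩
  exact ⟨h2 t ht2.1 ht2.2 ht1, ht2⟩

lemma Neg.union {S S' : ℝ → Set ℝ} (h : Neg S) (h' : Neg S') : Neg (fun T => S T ∪ S' T) := by
  intro ε hε
  filter_upwards [h (ε / 2) (by positivity), h' (ε / 2) (by positivity), eventually_gt_atTop 0] with T h1 h2 hT
  rw [Set.union_inter_distrib_right]
  refine le_trans (measure_union_le _ _) ?_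
  refine le_trans (add_le_add h1 h2) ?_
  rw [← ENNReal.ofReal_add (by positivity) (by positivity)]
  refine ENNReal.ofReal_le_ofReal ?_
  nlinarith

lemma Neg.fr {S : ℝ → Set ℝ} (h : Neg S) : Tendsto (fun T => frac T (S T)) atTop (𝓝 0) := fr0 S h

/-- the average of `z ^ (2k)` over the window -/
noncomputable def Aw (k d H t : ℝ) : ℝ := (1 / H) * ∫ u in t..(t + H), z d u ^ (2 * k)

/-- the proportion of the window on which `z` is at least `d ^ (-V)` -/
noncomputable def lv (V d H t : ℝ) : ℝ := (volume {u : ℝ | t ≤ u ∧ u ≤ t + H ∧ d ^ (-V) ≤ z d u}).toReal / H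

/-- powers of `d` are eventually small -/
lemma Ad.pw {d : ℝ → ℝ} (h : Ad d) (s c : ℝ) (hs : 0 < s) (hc : 0 < c) : ∀ᶠ T : ℝ in atTop, d T ^ s < c := by
  have h5 : ContinuousAt (fun x : ℝ => x ^ s) 0 := Real.continuousAt_rpow_const _ _ (Or.inr hs.le)
  have h6 := h5.tendsto.comp h.t0
  rw [Real.zero_rpow hs.ne'] at h6
  exact h6.eventually (gt_mem_nhds hc)

lemma Ad.sm {d : ℝ → ℝ} (h : Ad d) : ∀ᶠ T : ℝ in atTop, 0 < d T ∧ d T < 1 / 16 :=
  h.pos.and (h.t0.eventually (gt_mem_nhds (by norm_num)))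

open Pool.Agent.N748.GC in
lemma ex (hC : Pool.Agent.N748.HM.S_CORE3) (haa : ∀ α : ℝ, 0 < α → 0 < aa α) {d : ℝ → ℝ} (hd : Ad d)
    (k θ e : ℝ) (hk : 0 < k) (hθ : 0 < θ) (hkθ : k ^ 2 - 1 < θ) (he : 0 < e) :
    Neg (fun T => {t : ℝ | ¬ (d T ^ (-k ^ 2 + e) ≤ Aw k (d T) (d T ^ (-θ)) t ∧
      Aw k (d T) (d T ^ (-θ)) t ≤ d T ^ (-k ^ 2 - e))}) := by
  have hA : Neg (fun T => {t : ℝ | 1 / 2 ≤ |(1 / d T ^ (-θ)) * (∫ u in t..(t + d T ^ (-θ)), Zn k (d T) u) - 1|}) :=
    part1 hC hd k θ θ (1 / 2) hk hθ hkθ (by norm_num) (fun T => d T ^ (-θ))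
      (Eventually.of_forall fun T => ⟨le_rfl, le_rfl⟩)
  refine hA.mono ?_
  have hm := haa k hk
  have h2 : (0:ℝ) < 2 ^ (k ^ 2) := by positivity
  filter_upwards [hd.sm, hd.pw e ((1 / 2) * (aa k / 2 ^ (k ^ 2))) he (by positivity),
    hd.pw e (1 / (2 * (aa k / 2 ^ (k ^ 2)))) he (by positivity)] with T ⟨h3, h4⟩ h5 h6 t ht0 htT ht
  by_contra hcon
  rw [not_le, abs_lt] at hcon
  apply ht
  have e1 : (1 / d T ^ (-θ)) * (∫ u in t..(t + d T ^ (-θ)), Zn k (d T) u) =
      2 ^ (k ^ 2) / aa k * d T ^ (k ^ 2) * Aw k (d T) (d T ^ (-θ)) t := by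
    unfold Aw
    have : ∀ u, Zn k (d T) u = (2 * d T) ^ (k ^ 2) / aa k * z (d T) u ^ (2 * k) := fun u => rfl
    simp_rw [this]
    rw [intervalIntegral.integral_const_mul, Real.mul_rpow (by norm_num) h3.le]
    ring
  rw [e1] at hcon
  set A := Aw k (d T) (d T ^ (-θ)) t with hA'
  set m := aa k / 2 ^ (k ^ 2) with hm'
  have hmp : 0 < m := by positivity
  have e2 : 2 ^ (k ^ 2) / aa k = 1 / m := by rw [hm']; field_simp
  rw [e2] at hcon
  have hp : 0 < d T ^ (k ^ 2) := Real.rpow_pos_of_pos h3 _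
  have h7 : 1 / 2 * m < d T ^ (k ^ 2) * A := by
    have h8 : 1 / 2 < 1 / m * d T ^ (k ^ 2) * A := by linarith [hcon.1]
    have h9 := mul_lt_mul_of_pos_right h8 hmp
    have h10 : 1 / m * d T ^ (k ^ 2) * A * m = d T ^ (k ^ 2) * A := by field_simp
    linarith
  have h8 : d T ^ (k ^ 2) * A < 2 * m := by
    have h8 : 1 / m * d T ^ (k ^ 2) * A < 2 := by linarith [hcon.2]
    have h9 := mul_lt_mul_of_pos_right h8 hmp
    have h10 : 1 / m * d T ^ (k ^ 2) * A * m = d T ^ (k ^ 2) * A := by field_simp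
    linarith
  constructor
  · have h9 : d T ^ (k ^ 2) * d T ^ (-k ^ 2 + e) = d T ^ e := by
      rw [← Real.rpow_add h3]
      congr 1
      ring
    refine le_of_mul_le_mul_left (a := d T ^ (k ^ 2)) ?_ hp
    rw [h9]
    linarith
  · have h9 : d T ^ (k ^ 2) * d T ^ (-k ^ 2 - e) * d T ^ e = 1 := by
      rw [← Real.rpow_add h3, ← Real.rpow_add h3, ← Real.rpow_zero (d T)]
      congr 1
      ring
    refine le_of_mul_le_mul_left (a := d T ^ (k ^ 2)) ?_ hp
    rw [lt_div_iff₀ (by positivity)] at h6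
    have h10 : 0 < d T ^ e := Real.rpow_pos_of_pos h3 _
    refine le_of_mul_le_mul_right (a := d T ^ e) ?_ h10
    rw [h9]
    nlinarith

lemma Aw_ii {δ : ℝ} (h0 : 0 < δ) (h1 : δ < 1 / 2) {k : ℝ} (hk : 0 ≤ k) (a b : ℝ) :
    IntervalIntegrable (fun u => z δ u ^ (2 * k)) volume a b :=
  ((z_cont h0 h1).rpow_const fun _ => Or.inr (by linarith)).intervalIntegrable _ _

lemma lv_eq {δ : ℝ} (h0 : 0 < δ) (h1 : δ < 1 / 2) {V H t : ℝ} (hH : 0 < H) :
    lv V δ H t = (1 / H) * ∫ u in t..(t + H), Set.indicator {u : ℝ | δ ^ (-V) ≤ z δ u} (fun _ => (1:ℝ)) u := by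
  unfold lv
  have hms : MeasurableSet {u : ℝ | δ ^ (-V) ≤ z δ u} :=
    measurableSet_le measurable_const (z_cont h0 h1).measurable
  rw [intervalIntegral.integral_of_le (by linarith), ← integral_Icc_eq_integral_Ioc, integral_indicator hms,
    Measure.restrict_restrict hms]
  rw [setIntegral_const, smul_eq_mul, mul_one]
  have : {u : ℝ | t ≤ u ∧ u ≤ t + H ∧ δ ^ (-V) ≤ z δ u} = {u : ℝ | δ ^ (-V) ≤ z δ u} ∩ Set.Icc t (t + H) := by
    ext u
    simp only [Set.mem_setOf_eq, Set.mem_inter_iff, Set.mem_Icc]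
    tauto
  rw [this]
  show _ = 1 / H * (volume ({u : ℝ | δ ^ (-V) ≤ z δ u} ∩ Set.Icc t (t + H))).toReal
  ring

lemma lv_ii {δ : ℝ} (h0 : 0 < δ) (h1 : δ < 1 / 2) (V a b : ℝ) :
    IntervalIntegrable (Set.indicator {u : ℝ | δ ^ (-V) ≤ z δ u} (fun _ => (1:ℝ))) volume a b := by
  have hms : MeasurableSet {u : ℝ | δ ^ (-V) ≤ z δ u} :=
    measurableSet_le measurable_const (z_cont h0 h1).measurable
  refine IntervalIntegrable.mono_fun (g := Set.indicator {u : ℝ | δ ^ (-V) ≤ z δ u} (fun _ => (1:ℝ)))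
    (f := fun _ => (1:ℝ)) intervalIntegrable_const
    (measurable_const.indicator hms).aestronglyMeasurable ?_
  refine Eventually.of_forall fun u => ?_
  show ‖Set.indicator {u : ℝ | δ ^ (-V) ≤ z δ u} (fun _ => (1:ℝ)) u‖ ≤ ‖(1:ℝ)‖
  exact norm_indicator_le_norm_self (fun _ => (1:ℝ)) u

lemma lv_nonneg {δ V H t : ℝ} (hH : 0 < H) : 0 ≤ lv V δ H t := by
  unfold lv
  positivity

/-- Chebyshev -/
lemma lv_le {δ : ℝ} (h0 : 0 < δ) (h1 : δ < 1 / 2) {k V H t : ℝ} (hk : 0 ≤ k) (hH : 0 < H) :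
    δ ^ (-V * (2 * k)) * lv V δ H t ≤ Aw k δ H t := by
  rw [lv_eq h0 h1 hH]
  unfold Aw
  rw [← mul_assoc, mul_comm (δ ^ (-V * (2 * k))) (1 / H), mul_assoc]
  refine mul_le_mul_of_nonneg_left ?_ (by positivity)
  rw [← intervalIntegral.integral_const_mul]
  refine intervalIntegral.integral_mono_on (by linarith) ((lv_ii h0 h1 V _ _).const_mul _) (Aw_ii h0 h1 hk _ _) ?_
  intro u hu
  by_cases h : u ∈ {u : ℝ | δ ^ (-V) ≤ z δ u}
  · rw [Set.indicator_of_mem h, mul_one, Real.rpow_mul h0.le]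
    exact Real.rpow_le_rpow (Real.rpow_nonneg h0.le _) h (by linarith)
  · rw [Set.indicator_of_notMem h, mul_zero]
    exact Real.rpow_nonneg (z_nonneg _ _) _

/-- the splitting of the average -/
lemma Aw_split {δ : ℝ} (h0 : 0 < δ) (h1 : δ < 1 / 2) {V k V2 H t : ℝ} (hV : 0 ≤ V) (hk : V ≤ k) (hk2 : k ≤ V2)
    (hH : 0 < H) :
    Aw k δ H t ≤ δ ^ (-V * (2 * (k - V))) * Aw V δ H t + δ ^ (V2 * (2 * (V2 - k))) * Aw V2 δ H t +
      δ ^ (-V2 * (2 * k)) * lv V δ H t := by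
  rw [lv_eq h0 h1 hH]
  unfold Aw
  have hi1 := Aw_ii h0 h1 hV t (t + H)
  have hi2 := Aw_ii h0 h1 (hV.trans (hk.trans hk2)) t (t + H)
  have hi3 := lv_ii h0 h1 V t (t + H)
  have h2 : ∫ u in t..(t + H), z δ u ^ (2 * k) ≤
      ∫ u in t..(t + H), (δ ^ (-V * (2 * (k - V))) * z δ u ^ (2 * V) + δ ^ (V2 * (2 * (V2 - k))) * z δ u ^ (2 * V2) +
      δ ^ (-V2 * (2 * k)) * Set.indicator {u : ℝ | δ ^ (-V) ≤ z δ u} (fun _ => (1:ℝ)) u) := by
    refine intervalIntegral.integral_mono_on (by linarith) (Aw_ii h0 h1 (hV.trans hk) _ _)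
      (((hi1.const_mul _).add (hi2.const_mul _)).add (hi3.const_mul _)) ?_
    intro u hu
    have hz := z_nonneg δ u
    have n1 : 0 ≤ δ ^ (-V * (2 * (k - V))) * z δ u ^ (2 * V) :=
      mul_nonneg (Real.rpow_nonneg h0.le _) (Real.rpow_nonneg hz _)
    have n2 : 0 ≤ δ ^ (V2 * (2 * (V2 - k))) * z δ u ^ (2 * V2) :=
      mul_nonneg (Real.rpow_nonneg h0.le _) (Real.rpow_nonneg hz _)
    have n3 : 0 ≤ δ ^ (-V2 * (2 * k)) * Set.indicator {u : ℝ | δ ^ (-V) ≤ z δ u} (fun _ => (1:ℝ)) u :=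
      mul_nonneg (Real.rpow_nonneg h0.le _) (Set.indicator_nonneg (fun _ _ => zero_le_one) _)
    rcases lt_or_ge (z δ u) (δ ^ (-V)) with h | h
    · have h3 : z δ u ^ (2 * k) ≤ δ ^ (-V * (2 * (k - V))) * z δ u ^ (2 * V) := by
        rw [show 2 * k = 2 * (k - V) + 2 * V by ring, Real.rpow_add_of_nonneg hz (by linarith) (by linarith)]
        refine mul_le_mul_of_nonneg_right ?_ (Real.rpow_nonneg hz _)
        rw [Real.rpow_mul h0.le]
        exact Real.rpow_le_rpow hz h.le (by linarith)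
      linarith
    · rcases le_or_gt (z δ u) (δ ^ (-V2)) with h4 | h4
      · have h5 : Set.indicator {u : ℝ | δ ^ (-V) ≤ z δ u} (fun _ => (1:ℝ)) u = 1 :=
          Set.indicator_of_mem (show u ∈ {u : ℝ | δ ^ (-V) ≤ z δ u} from h) _
        rw [h5, mul_one] at n3 ⊢
        have h6 : z δ u ^ (2 * k) ≤ δ ^ (-V2 * (2 * k)) := by
          rw [Real.rpow_mul h0.le]
          exact Real.rpow_le_rpow hz h4 (by linarith)
        linarith
      · have hz0 : 0 < z δ u := lt_of_lt_of_le (Real.rpow_pos_of_pos h0 _) h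
        have h6 : z δ u ^ (2 * k) ≤ δ ^ (V2 * (2 * (V2 - k))) * z δ u ^ (2 * V2) := by
          rw [show 2 * V2 = 2 * (V2 - k) + 2 * k by ring, Real.rpow_add hz0, ← mul_assoc]
          refine le_mul_of_one_le_left (Real.rpow_nonneg hz _) ?_
          rw [show δ ^ (V2 * (2 * (V2 - k))) = (δ ^ (-V2)) ^ (-(2 * (V2 - k))) by
            rw [← Real.rpow_mul h0.le]; congr 1; ring]
          rw [Real.rpow_neg (Real.rpow_nonneg h0.le _), ← div_eq_inv_mul, one_le_div
            (Real.rpow_pos_of_pos (Real.rpow_pos_of_pos h0 _) _)]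
          exact Real.rpow_le_rpow (Real.rpow_nonneg h0.le _) h4.le (by linarith)
        linarith
  rw [intervalIntegral.integral_add ((hi1.const_mul _).add (hi2.const_mul _)) (hi3.const_mul _),
    intervalIntegral.integral_add (hi1.const_mul _) (hi2.const_mul _), intervalIntegral.integral_const_mul,
    intervalIntegral.integral_const_mul, intervalIntegral.integral_const_mul] at h2
  have h3 := mul_le_mul_of_nonneg_left h2 (show (0:ℝ) ≤ 1 / H by positivity)
  refine h3.trans (le_of_eq ?_)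
  ring

/-- the averages of order below `q` have the quadratic exponents -/
def EX (d H : ℝ → ℝ) (q : ℝ) : Prop := ∀ k e : ℝ, 0 < k → k < q → 0 < e →
  Neg (fun T => {t : ℝ | ¬ (d T ^ (-k ^ 2 + e) ≤ Aw k (d T) (H T) t ∧ Aw k (d T) (H T) t ≤ d T ^ (-k ^ 2 - e))})

/-- the exponent of the maximum is at most `q` -/
def MX (d H : ℝ → ℝ) (q : ℝ) : Prop := ∀ e : ℝ, 0 < e →
  Neg (fun T => {t : ℝ | d T ^ (-(q + e)) ≤ mx (d T) (H T) t})

/-- the level sets in almost all windows -/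
lemma level {d H : ℝ → ℝ} (hd : Ad d) (hH0 : ∀ᶠ T : ℝ in atTop, 0 < H T) {q : ℝ} (hE : EX d H q)
    (V e : ℝ) (hV : 0 < V) (hVq : V < q) (he : 0 < e) :
    Neg (fun T => {t : ℝ | ¬ (d T ^ (V ^ 2 + e) ≤ lv V (d T) (H T) t ∧
      lv V (d T) (H T) t ≤ d T ^ (V ^ 2 - e))}) := by
  -- the parameters
  obtain ⟨η, hη0, hη1, hη2, hη3⟩ : ∃ η : ℝ, 0 < η ∧ V + 2 * η < q ∧ 4 * V * η + 4 * η ^ 2 ≤ e / 2 ∧ η ≤ 1 := by
    refine ⟨min 1 (min ((q - V) / 3) (e / (8 * (V + 1)))), ?_, ?_, ?_, min_le_left _ _⟩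
    · refine lt_min one_pos (lt_min (by linarith) (by positivity))
    · have h1 : min 1 (min ((q - V) / 3) (e / (8 * (V + 1)))) ≤ (q - V) / 3 :=
        (min_le_right _ _).trans (min_le_left _ _)
      linarith
    · set η := min 1 (min ((q - V) / 3) (e / (8 * (V + 1)))) with hη
      have h1 : η ≤ e / (8 * (V + 1)) := (min_le_right _ _).trans (min_le_right _ _)
      have h2 : η ≤ 1 := min_le_left _ _
      have h3 : 0 < η := by
        rw [hη]
        exact lt_min one_pos (lt_min (by linarith) (by positivity))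
      rw [le_div_iff₀ (by positivity)] at h1
      nlinarith
  set k : ℝ := V + η with hk
  set V2 : ℝ := V + 2 * η with hV2
  set e' : ℝ := min (e / 2) (η ^ 2 / 4) with he'
  have he'0 : 0 < e' := lt_min (by positivity) (by positivity)
  have hk0 : 0 < k := by positivity
  have hV20 : 0 < V2 := by positivity
  have a1 := hE V e' hV hVq he'0
  have a2 := hE k e' hk0 (by linarith) he'0
  have a3 := hE V2 e' hV20 hη1 he'0
  refine ((a1.union a2).union a3).mono ?_
  filter_upwards [hd.sm, hd.pw (η ^ 2 / 2) (1 / 4) (by positivity) (by norm_num),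
    hd.pw (e / 4) (1 / 2) (by positivity) (by norm_num), hH0] with T ⟨h3, h4⟩ h5 h6 hH t ht0 htT ht
  by_contra hcon
  simp only [Set.mem_union, Set.mem_setOf_eq, not_or, not_not] at hcon
  obtain ⟨⟨⟨b1, b2⟩, ⟨b3, b4⟩⟩, ⟨b5, b6⟩⟩ := hcon
  apply ht
  have hδ : d T < 1 / 2 := by linarith
  have mono : ∀ x y : ℝ, x ≤ y → d T ^ y ≤ d T ^ x := fun x y hxy =>
    Real.rpow_le_rpow_of_exponent_ge h3 (by linarith) hxy
  constructor
  · have c1 := Aw_split h3 hδ (t := t) hV.le (show V ≤ k by linarith) (show k ≤ V2 by linarith) hH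
    have c2 : d T ^ (-V * (2 * (k - V))) * Aw V (d T) (H T) t ≤ d T ^ (-k ^ 2 + 3 * η ^ 2 / 4) := by
      refine (mul_le_mul_of_nonneg_left b2 (Real.rpow_nonneg h3.le _)).trans ?_
      rw [← Real.rpow_add h3]
      refine mono _ _ ?_
      have := min_le_right (e / 2) (η ^ 2 / 4)
      rw [← he'] at this
      rw [hk]
      nlinarith
    have c3 : d T ^ (V2 * (2 * (V2 - k))) * Aw V2 (d T) (H T) t ≤ d T ^ (-k ^ 2 + 3 * η ^ 2 / 4) := by
      refine (mul_le_mul_of_nonneg_left b6 (Real.rpow_nonneg h3.le _)).trans ?_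
      rw [← Real.rpow_add h3]
      refine mono _ _ ?_
      have := min_le_right (e / 2) (η ^ 2 / 4)
      rw [← he'] at this
      rw [hk, hV2]
      nlinarith
    have c4 : d T ^ (-k ^ 2 + 3 * η ^ 2 / 4) ≤ 1 / 4 * d T ^ (-k ^ 2 + η ^ 2 / 4) := by
      rw [show -k ^ 2 + 3 * η ^ 2 / 4 = η ^ 2 / 2 + (-k ^ 2 + η ^ 2 / 4) by ring, Real.rpow_add h3]
      exact mul_le_mul_of_nonneg_right h5.le (Real.rpow_nonneg h3.le _)
    have c5 : d T ^ (-k ^ 2 + η ^ 2 / 4) ≤ Aw k (d T) (H T) t := by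
      refine le_trans (mono _ _ ?_) b3
      have := min_le_right (e / 2) (η ^ 2 / 4)
      rw [← he'] at this
      linarith
    have c6 : 1 / 2 * d T ^ (-k ^ 2 + η ^ 2 / 4) ≤ d T ^ (-V2 * (2 * k)) * lv V (d T) (H T) t := by linarith
    have c7 : d T ^ (V2 * (2 * k)) * (1 / 2 * d T ^ (-k ^ 2 + η ^ 2 / 4)) ≤ lv V (d T) (H T) t := by
      have h7 := mul_le_mul_of_nonneg_left c6 (show 0 ≤ d T ^ (V2 * (2 * k)) from Real.rpow_nonneg h3.le _)
      rw [← mul_assoc (d T ^ (V2 * (2 * k))) (d T ^ (-V2 * (2 * k))), ← Real.rpow_add h3] at h7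
      rw [show V2 * (2 * k) + -V2 * (2 * k) = 0 by ring, Real.rpow_zero, one_mul] at h7
      exact h7
    refine le_trans ?_ c7
    rw [show d T ^ (V2 * (2 * k)) * (1 / 2 * d T ^ (-k ^ 2 + η ^ 2 / 4)) =
      1 / 2 * (d T ^ (V2 * (2 * k)) * d T ^ (-k ^ 2 + η ^ 2 / 4)) by ring, ← Real.rpow_add h3]
    calc d T ^ (V ^ 2 + e) ≤ d T ^ (e / 4 + (V2 * (2 * k) + (-k ^ 2 + η ^ 2 / 4))) := by
          refine mono _ _ ?_
          rw [hk, hV2]
          nlinarith
      _ ≤ 1 / 2 * d T ^ (V2 * (2 * k) + (-k ^ 2 + η ^ 2 / 4)) := by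
          rw [Real.rpow_add h3 (e / 4)]
          exact mul_le_mul_of_nonneg_right h6.le (Real.rpow_nonneg h3.le _)
  · have c1 := lv_le h3 hδ (V := V) (t := t) hV.le hH
    have c2 := c1.trans b2
    have h7 := mul_le_mul_of_nonneg_left c2 (show 0 ≤ d T ^ (V * (2 * V)) from Real.rpow_nonneg h3.le _)
    rw [← mul_assoc (d T ^ (V * (2 * V))) (d T ^ (-V * (2 * V))), ← Real.rpow_add h3, ← Real.rpow_add h3] at h7
    rw [show V * (2 * V) + -V * (2 * V) = 0 by ring, Real.rpow_zero, one_mul] at h7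
    refine h7.trans (mono _ _ ?_)
    have := min_le_left (e / 2) (η ^ 2 / 4)
    rw [← he'] at this
    nlinarith

/-- the exponent of the moment of order `2k` in windows in which the maximum has exponent `q` -/
noncomputable def En (k q : ℝ) : ℝ := 2 * k * min k q - min k q ^ 2

/-- the exponents of the moments in almost all windows -/
lemma freeze {d H : ℝ → ℝ} (hd : Ad d) (hH0 : ∀ᶠ T : ℝ in atTop, 0 < H T) {q : ℝ} (hq1 : 0 < q) (hE : EX d H q)
    (hM : MX d H q) (k e : ℝ) (hk : 0 < k) (he : 0 < e) :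
    Neg (fun T => {t : ℝ | ¬ (d T ^ (-(En k q) + e) ≤ Aw k (d T) (H T) t ∧
      Aw k (d T) (H T) t ≤ d T ^ (-(En k q) - e))}) := by
  rcases lt_or_ge k q with hkq | hkq
  · have h1 : En k q = k ^ 2 := by
      unfold En
      rw [min_eq_left hkq.le]
      ring
    rw [h1]
    exact hE k e hk hkq he
  · have h1 : En k q = 2 * k * q - q ^ 2 := by
      unfold En
      rw [min_eq_right hkq]
    rw [h1]
    -- the parameter `s`
    obtain ⟨s, hs0, hs1, hs2, hs3⟩ : ∃ s : ℝ, 0 < s ∧ s < q ∧ 2 * s * (k - q) + 3 * s ^ 2 + s ≤ e ∧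
        2 * k * s + s ^ 2 + s ≤ e := by
      refine ⟨min (q / 2) (min 1 (e / (2 * k + 4))), ?_, ?_, ?_⟩
      · exact lt_min (by positivity) (lt_min one_pos (by positivity))
      · have : min (q / 2) (min 1 (e / (2 * k + 4))) ≤ q / 2 := min_le_left _ _
        linarith
      · set s := min (q / 2) (min 1 (e / (2 * k + 4))) with hs
        have h2 : s ≤ 1 := (min_le_right _ _).trans (min_le_left _ _)
        have h3 : s ≤ e / (2 * k + 4) := (min_le_right _ _).trans (min_le_right _ _)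
        have h4 : 0 < s := by
          rw [hs]
          exact lt_min (by positivity) (lt_min one_pos (by positivity))
        rw [le_div_iff₀ (by positivity)] at h3
        constructor
        · nlinarith
        · nlinarith
    have hV : 0 < q - s := by linarith
    have a1 := level hd hH0 hE (q - s) s hV (by linarith) hs0
    have a2 := hE (q - s) s hV (by linarith) hs0
    have a3 := hM s hs0
    refine ((a1.union a2).union a3).mono ?_
    filter_upwards [hd.sm, hH0] with T ⟨h3, h4⟩ hH t ht0 htT ht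
    by_contra hcon
    simp only [Set.mem_union, Set.mem_setOf_eq, not_or, not_not, not_le] at hcon
    obtain ⟨⟨⟨b1, b2⟩, ⟨b3, b4⟩⟩, b5⟩ := hcon
    apply ht
    have hδ : d T < 1 / 2 := by linarith
    have mono : ∀ x y : ℝ, x ≤ y → d T ^ y ≤ d T ^ x := fun x y hxy =>
      Real.rpow_le_rpow_of_exponent_ge h3 (by linarith) hxy
    constructor
    · have c1 := lv_le h3 hδ (k := k) (V := q - s) (t := t) hk.le hH
      refine le_trans ?_ c1
      refine le_trans ?_ (mul_le_mul_of_nonneg_left b1 (Real.rpow_nonneg h3.le _))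
      rw [← Real.rpow_add h3]
      refine mono _ _ ?_
      nlinarith
    · have hmx := (mx_spec (t := t) h3 hδ hH.le).1
      have c1 : Aw k (d T) (H T) t ≤ d T ^ (-(q + s) * (2 * (k - (q - s)))) *
          Aw (q - s) (d T) (H T) t := by
        unfold Aw
        rw [← mul_assoc, mul_comm (d T ^ (-(q + s) * (2 * (k - (q - s))))) (1 / H T), mul_assoc]
        refine mul_le_mul_of_nonneg_left ?_ (by positivity)
        rw [← intervalIntegral.integral_const_mul]
        refine intervalIntegral.integral_mono_on (by linarith) (Aw_ii h3 hδ hk.le _ _)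
          ((Aw_ii h3 hδ hV.le _ _).const_mul _) ?_
        intro u hu
        have hz := z_nonneg (d T) u
        have h6 : z (d T) u ≤ d T ^ (-(q + s)) := (hmx u hu).trans b5.le
        rw [show 2 * k = 2 * (k - (q - s)) + 2 * (q - s) by ring,
          Real.rpow_add_of_nonneg hz (by linarith) (by linarith)]
        refine mul_le_mul_of_nonneg_right ?_ (Real.rpow_nonneg hz _)
        rw [Real.rpow_mul h3.le]
        exact Real.rpow_le_rpow hz h6 (by linarith)
      refine (c1.trans (mul_le_mul_of_nonneg_left b4 (Real.rpow_nonneg h3.le _))).trans ?_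
      rw [← Real.rpow_add h3]
      refine mono _ _ ?_
      nlinarith

end Pool.Agent.V5helper51.HM
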