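import Pool.Agent.V5helper51.HM.Fin2

set_option autoImplicit false

/-!
# Project HM: windows of general length
-/

namespace Pool.Agent.V5helper51.HM

open MeasureTheory Filter Topology

/-- admissible window lengths of exponent `θ` -/
structure Wd (d H : ℝ → ℝ) (θ : ℝ) : Prop where
  pos : ∀ᶠ T : ℝ in atTop, 0 < H T
  lim : Tendsto (fun T : ℝ => Real.log (H T) / Real.log (1 / d T)) atTop (𝓝 θ)

lemma Wd.bd {d H : ℝ → ℝ} {θ : ℝ} (hd : Ad d) (h : Wd d H θ) (e : ℝ) (he : 0 < e) :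
    ∀ᶠ T : ℝ in atTop, d T ^ (-(θ - e)) ≤ H T ∧ H T ≤ d T ^ (-(θ + e)) := by
  filter_upwards [hd.sm, h.pos, h.lim.eventually (Ioo_mem_nhds (show θ - e < θ by linarith) (show θ < θ + e by linarith))]
    with T ⟨h1, h2⟩ h3 ⟨h4, h5⟩
  have hL : 0 < Real.log (1 / d T) := Real.log_pos (by rw [lt_div_iff₀ h1]; linarith)
  have e1 : ∀ x : ℝ, d T ^ (-x) = Real.exp (x * Real.log (1 / d T)) := by
    intro x
    rw [Real.rpow_def_of_pos h1, one_div, Real.log_inv]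
    congr 1
    ring
  rw [e1, e1]
  rw [lt_div_iff₀ hL] at h4
  rw [div_lt_iff₀ hL] at h5
  constructor
  · rw [← Real.le_log_iff_exp_le h3]
    exact h4.le
  · rw [← Real.log_le_iff_le_exp h3]
    exact h5.le

/-- the averages over different windows -/
lemma Aw_mono {δ : ℝ} (h0 : 0 < δ) (h1 : δ < 1 / 2) {k H H' t : ℝ} (hk : 0 ≤ k) (hH : 0 < H) (hHH : H ≤ H') :
    Aw k δ H t ≤ (H' / H) * Aw k δ H' t := by
  unfold Aw
  have hH' : 0 < H' := lt_of_lt_of_le hH hHH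
  have h2 : ∫ u in t..(t + H), z δ u ^ (2 * k) ≤ ∫ u in t..(t + H'), z δ u ^ (2 * k) := by
    refine intervalIntegral.integral_mono_interval le_rfl (by linarith) (by linarith)
      (Eventually.of_forall fun u => Real.rpow_nonneg (z_nonneg _ _) _) (Aw_ii h0 h1 hk _ _)
  calc (1 / H) * ∫ u in t..(t + H), z δ u ^ (2 * k) ≤ (1 / H) * ∫ u in t..(t + H'), z δ u ^ (2 * k) :=
        mul_le_mul_of_nonneg_left h2 (by positivity)
    _ = _ := by field_simp

/-- the lower bound in windows of length one -/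
def Unit1 (d : ℝ → ℝ) : Prop := ∀ k e : ℝ, 0 < k → k < 1 → 0 < e →
  Neg (fun T => {t : ℝ | ¬ d T ^ (-k ^ 2 + e) ≤ Aw k (d T) 1 t})

lemma Aw_nonneg {k d H t : ℝ} (hH : 0 < H) : 0 ≤ Aw k d H t := by
  unfold Aw
  refine mul_nonneg (by positivity) ?_
  exact intervalIntegral.integral_nonneg (by linarith) fun u _ => Real.rpow_nonneg (z_nonneg _ _) _

open Pool.Agent.N748.GC in
/-- upper bounds in general windows -/
lemma EXu (hC : Pool.Agent.N748.HM.S_CORE3)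
    (haa : ∀ α : ℝ, 0 < α → 0 < aa α) {d H : ℝ → ℝ} (hd : Ad d) {θ : ℝ} (hH : Wd d H θ) (hθ : 0 ≤ θ)
    (k e : ℝ) (hk : 0 < k) (hkq : k < Real.sqrt (1 + θ)) (he : 0 < e) :
    Neg (fun T => {t : ℝ | ¬ Aw k (d T) (H T) t ≤ d T ^ (-k ^ 2 - e)}) := by
  have hq : k ^ 2 < 1 + θ := (Real.lt_sqrt hk.le).1 hkq
  set s : ℝ := e / 8 with hs
  have hs0 : 0 < s := by positivity
  have a2 := ex hC haa hd k (θ + s) (e / 4) hk (by linarith) (by linarith) (by positivity)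
  refine a2.mono ?_
  filter_upwards [hd.sm, Wd.bd hd hH s hs0, hH.pos] with T ⟨h3, h4⟩ ⟨h5, h6⟩ hH0 t ht0 htT ht
  by_contra hcon
  obtain ⟨b3, b4⟩ := hcon
  apply ht
  have hδ : d T < 1 / 2 := by linarith
  have p2 : 0 < d T ^ (-(θ + s)) := Real.rpow_pos_of_pos h3 _
  have mono : ∀ x y : ℝ, x ≤ y → d T ^ y ≤ d T ^ x := fun x y hxy =>
    Real.rpow_le_rpow_of_exponent_ge h3 (by linarith) hxy
  have q2 : d T ^ (-(θ + s)) ≤ d T ^ (-(2 * s)) * H T := by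
    rw [show -(θ + s) = -(2 * s) + -(θ - s) by ring, Real.rpow_add h3]
    exact mul_le_mul_of_nonneg_left h5 (Real.rpow_nonneg h3.le _)
  have g1 := Aw_mono h3 hδ (k := k) (t := t) hk.le hH0 h6
  have g2 : Aw k (d T) (H T) t ≤ d T ^ (-(2 * s)) * Aw k (d T) (d T ^ (-(θ + s))) t := by
    refine g1.trans (mul_le_mul_of_nonneg_right ?_ (Aw_nonneg p2))
    rw [div_le_iff₀ hH0]
    exact q2
  refine (g2.trans (mul_le_mul_of_nonneg_left b4 (Real.rpow_nonneg h3.le _))).trans ?_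
  rw [← Real.rpow_add h3]
  refine mono _ _ ?_
  linarith

open Pool.Agent.N748.GC in
/-- lower bounds in general windows -/
lemma EXl (hC : Pool.Agent.N748.HM.S_CORE3)
    (haa : ∀ α : ℝ, 0 < α → 0 < aa α) {d H : ℝ → ℝ} (hd : Ad d) (hU : Unit1 d) {θ : ℝ} (hH : Wd d H θ) (hθ : 0 ≤ θ)
    (hH1 : ∀ᶠ T : ℝ in atTop, 1 ≤ H T)
    (k e : ℝ) (hk : 0 < k) (hkq : k < Real.sqrt (1 + θ)) (he : 0 < e) :
    Neg (fun T => {t : ℝ | ¬ d T ^ (-k ^ 2 + e) ≤ Aw k (d T) (H T) t}) := by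
  have hq : k ^ 2 < 1 + θ := (Real.lt_sqrt hk.le).1 hkq
  rcases hθ.eq_or_lt with hθ0 | hθ0
  · -- bounded exponent
    have hk1 : k < 1 := by
      rw [← hθ0] at hq
      nlinarith
    set s : ℝ := e / 8 with hs
    have hs0 : 0 < s := by positivity
    refine (hU k (e / 4) hk hk1 (by positivity)).mono ?_
    filter_upwards [hd.sm, Wd.bd hd hH s hs0, hH1] with T ⟨h3, h4⟩ ⟨h5, h6⟩ h7 t ht0 htT ht
    by_contra hcon
    apply ht
    have hδ : d T < 1 / 2 := by linarith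
    have mono : ∀ x y : ℝ, x ≤ y → d T ^ y ≤ d T ^ x := fun x y hxy =>
      Real.rpow_le_rpow_of_exponent_ge h3 (by linarith) hxy
    have hH0 : 0 < H T := by linarith
    have g1 := Aw_mono h3 hδ (k := k) (t := t) hk.le one_pos h7
    rw [div_one] at g1
    have g2 : Aw k (d T) 1 t ≤ d T ^ (-s) * Aw k (d T) (H T) t := by
      refine g1.trans (mul_le_mul_of_nonneg_right ?_ (Aw_nonneg hH0))
      rw [← hθ0, zero_add] at h6
      exact h6
    have g3 := hcon.trans g2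
    have g4 := mul_le_mul_of_nonneg_left g3 (show 0 ≤ d T ^ s from Real.rpow_nonneg h3.le _)
    rw [← mul_assoc (d T ^ s) (d T ^ (-s)), ← Real.rpow_add h3, ← Real.rpow_add h3] at g4
    rw [show s + -s = 0 by ring, Real.rpow_zero, one_mul] at g4
    refine le_trans (mono _ _ ?_) g4
    linarith
  · obtain ⟨s, hs0, hsθ, hse, hsk⟩ : ∃ s : ℝ, 0 < s ∧ s < θ ∧ s ≤ e / 8 ∧ k ^ 2 - 1 < θ - s := by
      refine ⟨min (min (θ / 2) (e / 8)) ((1 + θ - k ^ 2) / 2), ?_, ?_, ?_, ?_⟩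
      · exact lt_min (lt_min (by positivity) (by positivity)) (by linarith)
      · have : min (min (θ / 2) (e / 8)) ((1 + θ - k ^ 2) / 2) ≤ θ / 2 := (min_le_left _ _).trans (min_le_left _ _)
        linarith
      · exact (min_le_left _ _).trans (min_le_right _ _)
      · have : min (min (θ / 2) (e / 8)) ((1 + θ - k ^ 2) / 2) ≤ (1 + θ - k ^ 2) / 2 := min_le_right _ _
        linarith
    have a1 := ex hC haa hd k (θ - s) (e / 4) hk (by linarith) hsk (by positivity)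
    refine a1.mono ?_
    filter_upwards [hd.sm, Wd.bd hd hH s hs0] with T ⟨h3, h4⟩ ⟨h5, h6⟩ t ht0 htT ht
    by_contra hcon
    obtain ⟨b1, b2⟩ := hcon
    apply ht
    have hδ : d T < 1 / 2 := by linarith
    have p1 : 0 < d T ^ (-(θ - s)) := Real.rpow_pos_of_pos h3 _
    have hH0 : 0 < H T := lt_of_lt_of_le p1 h5
    have mono : ∀ x y : ℝ, x ≤ y → d T ^ y ≤ d T ^ x := fun x y hxy =>
      Real.rpow_le_rpow_of_exponent_ge h3 (by linarith) hxy
    have q1 : H T ≤ d T ^ (-(2 * s)) * d T ^ (-(θ - s)) := by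
      rw [← Real.rpow_add h3]
      exact h6.trans (le_of_eq (by congr 1; ring))
    have g1 := Aw_mono h3 hδ (k := k) (t := t) hk.le p1 h5
    have g2 : Aw k (d T) (d T ^ (-(θ - s))) t ≤ d T ^ (-(2 * s)) * Aw k (d T) (H T) t := by
      refine g1.trans (mul_le_mul_of_nonneg_right ?_ (Aw_nonneg hH0))
      rw [div_le_iff₀ p1]
      exact q1
    have g3 := b1.trans g2
    have g4 := mul_le_mul_of_nonneg_left g3 (show 0 ≤ d T ^ (2 * s) from Real.rpow_nonneg h3.le _)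
    rw [← mul_assoc (d T ^ (2 * s)) (d T ^ (-(2 * s))), ← Real.rpow_add h3, ← Real.rpow_add h3] at g4
    rw [show 2 * s + -(2 * s) = 0 by ring, Real.rpow_zero, one_mul] at g4
    refine le_trans (mono _ _ ?_) g4
    linarith

open Pool.Agent.N748.GC in
lemma EXg (hC : Pool.Agent.N748.HM.S_CORE3)
    (haa : ∀ α : ℝ, 0 < α → 0 < aa α) {d H : ℝ → ℝ} (hd : Ad d) (hU : Unit1 d) {θ : ℝ} (hH : Wd d H θ) (hθ : 0 ≤ θ)
    (hH1 : ∀ᶠ T : ℝ in atTop, 1 ≤ H T) : EX d H (Real.sqrt (1 + θ)) := by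
  intro k e hk hkq he
  refine ((EXl hC haa hd hU hH hθ hH1 k e hk hkq he).union (EXu hC haa hd hH hθ k e hk hkq he)).mono
    (Eventually.of_forall fun T t _ _ ht => ?_)
  simp only [Set.mem_union, Set.mem_setOf_eq] at ht ⊢
  tauto

/-- the levels beyond the maximum are empty -/
lemma empt (hS : Pool.Agent.N748.HM.S_SUPZ) {d H : ℝ → ℝ} (hd : Ad d)
    (V θ : ℝ) (hH : Wd d H θ) (hθ : 0 ≤ θ) (hVθ : Real.sqrt (1 + θ) < V) :
    Neg (fun T => {t : ℝ | ∃ u : ℝ, t ≤ u ∧ u ≤ t + H T ∧ d T ^ (-V) ≤ z (d T) u}) := by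
  have hcont : Continuous fun x : ℝ => Real.sqrt (1 + x) := by fun_prop
  obtain ⟨r, hr0, hr⟩ := Metric.continuous_iff.1 hcont θ ((V - Real.sqrt (1 + θ)) / 2) (by linarith)
  set s : ℝ := r / 2 with hs
  have hs0 : 0 < s := by positivity
  have c2 := hr (θ + s) (by rw [Real.dist_eq]; rw [show θ + s - θ = s by ring, abs_of_pos hs0]; linarith)
  rw [Real.dist_eq, abs_lt] at c2
  have a3 : Neg (fun T => {t : ℝ | d T ^ (-(Real.sqrt (1 + (θ + s)) + (V - Real.sqrt (1 + θ)) / 2)) ≤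
      mx (d T) (d T ^ (-(θ + s))) t}) :=
    part3u hS hd (θ + s) ((V - Real.sqrt (1 + θ)) / 2) (by linarith) (by linarith)
  refine a3.mono ?_
  filter_upwards [hd.sm, Wd.bd hd hH s hs0] with T ⟨h3, h4⟩ ⟨h5, h6⟩ t ht0 htT ⟨u, hu1, hu2, hu3⟩
  have hδ : d T < 1 / 2 := by linarith
  have p2 : 0 < d T ^ (-(θ + s)) := Real.rpow_pos_of_pos h3 _
  have h7 := (mx_spec (t := t) h3 hδ p2.le).1 u ⟨hu1, by linarith⟩
  refine le_trans ?_ (hu3.trans h7)
  refine Real.rpow_le_rpow_of_exponent_ge h3 (by linarith) ?_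
  linarith [c2.1, c2.2]

lemma MXg (hS : Pool.Agent.N748.HM.S_SUPZ) {d H : ℝ → ℝ} (hd : Ad d)
    (θ : ℝ) (hH : Wd d H θ) (hθ : 0 ≤ θ) : MX d H (Real.sqrt (1 + θ)) := by
  intro e he
  refine (empt hS hd (Real.sqrt (1 + θ) + e) θ hH hθ (by linarith)).mono ?_
  filter_upwards [hd.sm, hH.pos] with T ⟨h3, h4⟩ hH0 t ht0 htT ht
  obtain ⟨u, hu1, hu2⟩ := (mx_spec (t := t) h3 (by linarith : d T < 1 / 2) hH0.le).2
  refine ⟨u, hu1.1, hu1.2, ?_⟩
  rw [hu2]
  exact ht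

end Pool.Agent.V5helper51.HM
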