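import Pool.Agent.V5helper51.HM.Fin3
import Pool.Agent.V5helper51.HM.Stm2
import Pool.Agent.N748.MG.Res

set_option autoImplicit false

/-!
# Project HM: the three results, from (CORE3) and (SUPZ)
-/

namespace Pool.Agent.V5helper51.HM

open MeasureTheory Filter Topology

/-- the arithmetic factor of the moment conjecture -/
noncomputable def ak (k : ℝ) : ℝ :=
  ∏' p : Nat.Primes, ((1 - 1 / (p : ℝ)) ^ (k ^ 2) *
    ∑' m : ℕ, (∏ i ∈ Finset.range m, (k + i) / ((i : ℝ) + 1)) ^ 2 * (1 / (p : ℝ)) ^ m)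

lemma ak_aa (k : ℝ) : Pool.Agent.N748.GC.aa k = ak k := rfl

lemma haa : ∀ α : ℝ, 0 < α → 0 < Pool.Agent.N748.GC.aa α := fun _ h => Pool.Agent.H306R2.aF_pos h

lemma ak_pos {k : ℝ} (hk : 0 < k) : 0 < ak k := haa k hk

/-- the window average of `|ζ|^(2k)` divided by the prediction `a(k) (2d)^(-k²)` -/
noncomputable def W (k d H t : ℝ) : ℝ :=
  ((1 / H) * ∫ u in t..(t + H), ‖riemannZeta (1 / 2 + d + u * Complex.I)‖ ^ (2 * k)) / (ak k * (2 * d) ^ (-(k ^ 2)))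

lemma W_eq0 {k d H t : ℝ} (hd : 0 < d) :
    W k d H t = (1 / H) * (∫ u in t..(t + H), z d u ^ (2 * k)) * (2 * d) ^ (k ^ 2) / ak k := by
  have e2 : W k d H t = ((1 / H) * ∫ u in t..(t + H), z d u ^ (2 * k)) / (ak k * (2 * d) ^ (-(k ^ 2))) := rfl
  rw [e2, Real.rpow_neg (by linarith)]
  have : 0 < (2 * d) ^ (k ^ 2) := Real.rpow_pos_of_pos (by linarith) _
  generalize (∫ u in t..(t + H), z d u ^ (2 * k)) = I
  field_simp

lemma W_eq {k d H t : ℝ} (hd : 0 < d) :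
    W k d H t = (1 / H) * ∫ u in t..(t + H), Pool.Agent.N748.GC.Zn k d u := by
  have e : ∫ u in t..(t + H), Pool.Agent.N748.GC.Zn k d u =
      (2 * d) ^ (k ^ 2) / ak k * ∫ u in t..(t + H), z d u ^ (2 * k) := by
    rw [← intervalIntegral.integral_const_mul]
    rfl
  rw [e, W_eq0 hd]
  ring

theorem rA (hC : Pool.Agent.N748.HM.S_CORE3) (hS : Pool.Agent.N748.HM.S_SUPZ) (d : ℝ → ℝ)
    (hd0 : ∀ᶠ T : ℝ in atTop, 0 < d T) (hd : Tendsto d atTop (𝓝 0))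
    (hdL : Tendsto (fun T : ℝ => d T * Real.log T / Real.log (1 / d T) ^ 2) atTop atTop)
    (k : ℝ) (hk : 0 < k) (H : ℝ → ℝ) (η : ℝ) (hη : 0 < η) :
    (∀ θ D : ℝ, 0 < θ → k ^ 2 - 1 < θ → (∀ᶠ T : ℝ in atTop, d T ^ (-θ) ≤ H T ∧ H T ≤ d T ^ (-D)) →
      Tendsto (fun T : ℝ => frac T {t : ℝ | η ≤ |W k (d T) (H T) t - 1|}) atTop (𝓝 0)) ∧
    (∀ θ : ℝ, 0 ≤ θ → θ < k ^ 2 - 1 → (∀ᶠ T : ℝ in atTop, 0 < H T ∧ H T ≤ d T ^ (-θ)) →
      Tendsto (fun T : ℝ => frac T {t : ℝ | η ≤ W k (d T) (H T) t}) atTop (𝓝 0)) := by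
  have hAd : Ad d := ⟨hd0, hd, hdL⟩
  constructor
  · intro θ D hθ hkθ hH
    have h1 : Neg (fun T => {t : ℝ | η ≤ |(1 / H T) * (∫ u in t..(t + H T), Pool.Agent.N748.GC.Zn k (d T) u) - 1|}) :=
      part1 hC hAd k θ D η hk hθ hkθ hη H hH
    refine (h1.mono ?_).fr
    filter_upwards [hd0] with T h2 t _ _ ht
    have ht' : η ≤ |W k (d T) (H T) t - 1| := ht
    rw [W_eq h2] at ht'
    exact ht'
  · intro θ hθ hkθ hH
    have hk1 := ak_pos hk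
    have h1 : Neg (fun T => {t : ℝ | η * ak k ≤ (1 / H T) * (∫ u in t..(t + H T), z (d T) u ^ (2 * k)) *
        (2 * d T) ^ (k ^ 2)}) :=
      part2 hS Pool.Agent.N748.MG.tm3F hAd k θ (η * ak k) hk hθ hkθ (by positivity) H hH
    refine (h1.mono ?_).fr
    filter_upwards [hd0] with T h2 t _ _ ht
    have h3 : 0 < (2 * d T) ^ (k ^ 2) := Real.rpow_pos_of_pos (by linarith) _
    have ht' : η ≤ W k (d T) (H T) t := ht
    rw [W_eq0 h2, le_div_iff₀ hk1] at ht'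
    exact ht'

open Pool.Agent.N748.GC in
lemma unit1 (hW : S_W0) {d : ℝ → ℝ} (hd : Ad d) : Unit1 d := by
  intro k e hk hk1 he ε hε
  have hPd : Pd d := by
    refine ⟨hd.t0, ?_⟩
    refine tendsto_atTop_mono' _ ?_ hd.tL
    filter_upwards [hd.ev 1 (Real.exp (-1)) (Real.exp_pos _), eventually_gt_atTop 1] with T ⟨h1, h2, _⟩ hT
    have h3 : 1 ≤ Real.log (1 / d T) := by
      rw [one_div, Real.log_inv]
      have := Real.log_le_log h1 h2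
      rw [Real.log_exp] at this
      linarith
    have h4 : 0 ≤ d T * Real.log T := mul_nonneg h1.le (Real.log_pos hT).le
    refine div_le_self h4 ?_
    nlinarith
  obtain ⟨κ, hκ, h⟩ := hW k hk hk1 d hPd ε hε
  have ha := ak_pos hk
  filter_upwards [h, hd.sm, hd.pw e (ak k * 2 ^ (-(k ^ 2)) * κ) he (by positivity)] with T h1 ⟨h2, h3⟩ h4
  refine le_trans (measure_mono ?_) h1
  rintro t ⟨ht1, ht2⟩
  refine ⟨?_, ht2⟩
  by_contra hcon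
  apply ht1
  have h5 : κ < ∫ x in (0:ℝ)..1, Zn k (d T) (t + x) := not_le.1 hcon
  rw [intervalIntegral.integral_comp_add_left (fun u => Zn k (d T) u) t, add_zero] at h5
  have e1 : ∫ u in t..(t + 1), Zn k (d T) u = (2 * d T) ^ (k ^ 2) / ak k * ∫ u in t..(t + 1), z (d T) u ^ (2 * k) := by
    rw [← intervalIntegral.integral_const_mul]
    rfl
  rw [e1] at h5
  have e2 : Aw k (d T) 1 t = ∫ u in t..(t + 1), z (d T) u ^ (2 * k) := by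
    unfold Aw
    rw [one_div_one, one_mul]
  rw [e2]
  generalize (∫ u in t..(t + 1), z (d T) u ^ (2 * k)) = I at h5 ⊢
  have h6 : 0 < d T ^ (k ^ 2) := Real.rpow_pos_of_pos h2 _
  have h7 : (0:ℝ) < 2 ^ (k ^ 2) := by positivity
  rw [Real.mul_rpow (by norm_num) h2.le] at h5
  rw [Real.rpow_neg (by norm_num)] at h4
  have e3 : d T ^ (-k ^ 2 + e) = d T ^ e / d T ^ (k ^ 2) := by
    rw [← Real.rpow_sub h2]
    congr 1
    ring
  rw [e3, div_le_iff₀ h6]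
  refine h4.le.trans ?_
  have h8 : κ * (ak k / 2 ^ (k ^ 2)) < 2 ^ (k ^ 2) * d T ^ (k ^ 2) / ak k * I * (ak k / 2 ^ (k ^ 2)) :=
    mul_lt_mul_of_pos_right h5 (by positivity)
  have e4 : 2 ^ (k ^ 2) * d T ^ (k ^ 2) / ak k * I * (ak k / 2 ^ (k ^ 2)) = I * d T ^ (k ^ 2) := by
    field_simp
  have e5 : ak k * (2 ^ (k ^ 2))⁻¹ * κ = κ * (ak k / 2 ^ (k ^ 2)) := by ring
  rw [e4] at h8
  rw [e5]
  exact h8.le

theorem rB (hC : Pool.Agent.N748.HM.S_CORE3) (hS : Pool.Agent.N748.HM.S_SUPZ) (hW : S_W0) (d H : ℝ → ℝ)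
    (hd0 : ∀ᶠ T : ℝ in atTop, 0 < d T) (hd : Tendsto d atTop (𝓝 0))
    (hdL : Tendsto (fun T : ℝ => d T * Real.log T / Real.log (1 / d T) ^ 2) atTop atTop)
    (θ : ℝ) (hθ : 0 ≤ θ) (hH1 : ∀ᶠ T : ℝ in atTop, 1 ≤ H T)
    (hH : Tendsto (fun T : ℝ => Real.log (H T) / Real.log (1 / d T)) atTop (𝓝 θ))
    (k : ℝ) (hk : 0 < k) (e : ℝ) (he : 0 < e) :
    Tendsto (fun T : ℝ => frac T {t : ℝ | ¬ (d T ^ (-(En k (Real.sqrt (1 + θ))) + e) ≤ Aw k (d T) (H T) t ∧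
      Aw k (d T) (H T) t ≤ d T ^ (-(En k (Real.sqrt (1 + θ))) - e))}) atTop (𝓝 0) := by
  have hd' : Ad d := ⟨hd0, hd, hdL⟩
  have hH0 : ∀ᶠ T : ℝ in atTop, 0 < H T := hH1.mono fun T h => by linarith
  have hH' : Wd d H θ := ⟨hH0, hH⟩
  exact (freeze hd' hH0 (Real.sqrt_pos.2 (by linarith)) (EXg hC haa hd' (unit1 hW hd') hH' hθ hH1)
    (MXg hS hd' θ hH' hθ) k e hk he).fr

theorem rC (hC : Pool.Agent.N748.HM.S_CORE3) (hS : Pool.Agent.N748.HM.S_SUPZ) (hW : S_W0) (d H : ℝ → ℝ)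
    (hd0 : ∀ᶠ T : ℝ in atTop, 0 < d T) (hd : Tendsto d atTop (𝓝 0))
    (hdL : Tendsto (fun T : ℝ => d T * Real.log T / Real.log (1 / d T) ^ 2) atTop atTop)
    (θ : ℝ) (hθ : 0 ≤ θ) (hH1 : ∀ᶠ T : ℝ in atTop, 1 ≤ H T)
    (hH : Tendsto (fun T : ℝ => Real.log (H T) / Real.log (1 / d T)) atTop (𝓝 θ))
    (V : ℝ) (hV : 0 < V) :
    (V < Real.sqrt (1 + θ) → ∀ e : ℝ, 0 < e →
      Tendsto (fun T : ℝ => frac T {t : ℝ | ¬ (d T ^ (V ^ 2 + e) ≤ lv V (d T) (H T) t ∧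
        lv V (d T) (H T) t ≤ d T ^ (V ^ 2 - e))}) atTop (𝓝 0)) ∧
    (Real.sqrt (1 + θ) < V →
      Tendsto (fun T : ℝ => frac T {t : ℝ | ∃ u : ℝ, t ≤ u ∧ u ≤ t + H T ∧ d T ^ (-V) ≤ z (d T) u}) atTop (𝓝 0)) := by
  have hd' : Ad d := ⟨hd0, hd, hdL⟩
  have hH0 : ∀ᶠ T : ℝ in atTop, 0 < H T := hH1.mono fun T h => by linarith
  have hH' : Wd d H θ := ⟨hH0, hH⟩
  exact ⟨fun h e he => (level hd' hH0 (EXg hC haa hd' (unit1 hW hd') hH' hθ hH1) V e hV h he).fr,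
    fun h => (empt hS hd' V θ hH' hθ h).fr⟩

end Pool.Agent.V5helper51.HM
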